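import Pool.Agent.K1H53.SD.Defs

/-!
The free polymer measures with a drift and their wandering exponents.
-/

open MeasureTheory Filter

namespace Pool.Agent.K1H53.SF

open Pool.Agent.K1H53.SD

/-- The free polymer measure with drift `h` of the set `A` of walks: the probability of `A` under
the law on all walks `w` of `n` steps from `0` with weights proportional to
`exp(h S_n + β ∑_{i≤n} η(i, S_i))`; equivalently the polymer measure over the walk with independent
steps `±1` of probabilities proportional to `e^{±h}`; `h = 0` is simple random walk. -/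
noncomputable def frProb {n : ℕ} (β h : ℝ) (η : ℕ → ℤ → ℝ) (A : Set (Fin n → Bool)) : ℝ :=
  (∑ w : Fin n → Bool, A.indicator (fun w => Real.exp (h * pos w n + β * energy η w)) w) /
    ∑ w : Fin n → Bool, Real.exp (h * pos w n + β * energy η w)

/-- The wandering exponent of the free polymer with drift `h` around the line of slope `v`:
`inf{a > 0 : 𝔼(liminf_n P_n^h(max_{0≤i≤n} |S_i - i v| ≤ n^a)) = 1}`. -/
noncomputable def wanderingExpF {Ω : Type*} [MeasurableSpace Ω] (P : Measure Ω)
    (ω : ℕ → ℤ → Ω → ℝ) (β h v : ℝ) : ℝ :=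
  sInf {a : ℝ | 0 < a ∧ ∫⁻ x, liminf (fun n : ℕ => ENNReal.ofReal (frProb β h
    (fun i y => ω i y x) (tube n v ((n : ℝ) ^ a)))) atTop ∂P = 1}

end Pool.Agent.K1H53.SF
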