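import Pool.Agent.K1H53.SF.FConc
import Pool.Agent.K1H53.SD.Scal
import Pool.Agent.K1H53.SD.Gap

/-!
The set of directions around which a free polymer with some drift is confined at all large times is
a null set.
-/

open MeasureTheory ProbabilityTheory Set

set_option linter.unusedSectionVars false

namespace Pool.Agent.K1H53.SF

open Pool.Agent.K1H53.SD

/-- averaging without measurability of the set of directions -/
lemma exists_good' {H : ℝ → ℝ} (hH : Antitone H) {a b c : ℝ} (hab : a ≤ b) (hc : 0 ≤ c)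
    {V : Set ℝ} (hsub : V ⊆ Icc a b) (hpos : volume V ≠ 0) {k : ℝ}
    (hk : 2 * c * (H (a - c) - H (b + c)) < k * (volume V).toReal) :
    ∃ v ∈ V, H (v - c) - H (v + c) < k := by
  set g : ℝ → ℝ := fun v => H (v - c) - H (v + c) with hg
  have hg0 : ∀ v, 0 ≤ g v := fun v => sub_nonneg.2 (hH (by linarith))
  have ig : IntegrableOn g (Icc a b) volume := by
    have i1 : IntervalIntegrable (fun s => H (s - c)) volume a b :=
      (hH.comp_monotone (fun x y hxy => by simpa using hxy)).intervalIntegrable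
    have i2 : IntervalIntegrable (fun s => H (s + c)) volume a b :=
      (hH.comp_monotone (fun x y hxy => by simpa using hxy)).intervalIntegrable
    have := i1.sub i2
    rw [intervalIntegrable_iff_integrableOn_Icc_of_le hab] at this
    exact this
  have hVfin : volume V ≠ ⊤ := ne_top_of_le_ne_top (by simp) (measure_mono hsub)
  have hVpos : 0 < (volume V).toReal := ENNReal.toReal_pos hpos hVfin
  by_contra hcon
  push Not at hcon
  have hM := mul_meas_ge_le_integral_of_nonneg (μ := volume.restrict (Icc a b)) (f := g)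
    (Filter.Eventually.of_forall hg0) ig k
  have h1 : ∫ x in Icc a b, g x ≤ 2 * c * (H (a - c) - H (b + c)) := by
    calc ∫ x in Icc a b, g x = ∫ x in a..b, g x := by
          rw [integral_Icc_eq_integral_Ioc, ← intervalIntegral.integral_of_le hab]
      _ ≤ _ := integral_diff hH a b hc
  have h2 : volume V ≤ (volume.restrict (Icc a b)) {x | k ≤ g x} := by
    calc volume V ≤ volume ({x | k ≤ g x} ∩ Icc a b) := measure_mono fun v hv =>
          ⟨hcon v hv, hsub hv⟩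
      _ ≤ (volume.restrict (Icc a b)) {x | k ≤ g x} := Measure.le_restrict_apply _ _
  have h3 : (volume V).toReal ≤ (volume.restrict (Icc a b)).real {x | k ≤ g x} := by
    rw [measureReal_def]
    exact ENNReal.toReal_mono (measure_ne_top _ _) h2
  have hk0 : 0 ≤ k := by
    by_contra hk0
    push Not at hk0
    have h0 : 0 ≤ 2 * c * (H (a - c) - H (b + c)) :=
      mul_nonneg (by linarith) (sub_nonneg.2 (hH (by linarith)))
    have : k * (volume V).toReal < 0 := mul_neg_of_neg_of_pos hk0 hVpos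
    linarith
  have h4 := mul_le_mul_of_nonneg_left h3 hk0
  linarith

variable {Ω : Type*} [MeasurableSpace Ω] {P : Measure Ω} [IsProbabilityMeasure P]
variable {ω : ℕ → ℤ → Ω → ℝ}

/-- the inequality at a fixed scale and direction -/
lemma scale_ineq (he : IsEnv P ω) (hexp : HasExp P ω) {a₀ b₀ : ℝ} (hab : a₀ < b₀)
    (hp : 0 < (P.map (ω 1 0)).real (Set.Ici b₀)) (hm : 0 < (P.map (ω 1 0)).real (Set.Iic a₀))
    {β : ℝ} (hβ : 0 < β) (h : ℝ) {N r : ℕ} (hN : 1 ≤ N) (hr : 3 ≤ r) {v : ℝ}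
    (hb1 : (r : ℝ) * 16 ≤ N * (1 + v)) (hb2 : (r : ℝ) * 16 ≤ N * (1 - v)) {q t : ℝ}
    (hq : 1 / 2 < q) (hq1 : q ≤ 1) (ht : 0 < t) :
    2 * qf P ω β h (2 * N) v r q + qf P ω β h N v r q - 2 -
      (3 * r * (Hf P ω β N (v - 14 * r / N) - Hf P ω β N (v + 14 * r / N))) / t ≤
      (t + 3) * Real.sqrt ((2 * r + 1) *
        (1 / (P.map (ω 1 0)).real (Set.Ici b₀) + 1 / (P.map (ω 1 0)).real (Set.Iic a₀))) /
        (Real.sqrt N * (1 - Real.exp (-(β * (b₀ - a₀))))) := by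
  have hNR : (0 : ℝ) < N := by exact_mod_cast hN
  obtain ⟨b, l, D, g, hD, k1, k2, k3, k4⟩ := gm_of hN hr hb1 hb2
  have hc := core he hexp hab hp hm hβ h g hq hq1 ht
  set k := ⌊(N : ℝ) * (1 + v) / 2⌋ with hk
  have hG := integral_GF_le he hexp β g k1 k2 k3 k4
  have f1 : ⌊(N : ℝ) * (1 + (v - 14 * r / N)) / 2⌋ = k - 7 * r := by
    have : (N : ℝ) * (1 + (v - 14 * r / N)) / 2 = N * (1 + v) / 2 - ((7 * r : ℤ) : ℝ) := by
      push_cast; field_simp; ring
    rw [this, Int.floor_sub_intCast]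
  have f2 : ⌊(N : ℝ) * (1 + (v + 14 * r / N)) / 2⌋ = k + 7 * r := by
    have : (N : ℝ) * (1 + (v + 14 * r / N)) / 2 = N * (1 + v) / 2 + ((7 * r : ℤ) : ℝ) := by
      push_cast; field_simp; ring
    rw [this, Int.floor_add_intCast]
  have hr0 : (0 : ℤ) ≤ r := by positivity
  have g1 := Hf_eq P ω β f1 k1 (by omega)
  have g2 := Hf_eq P ω β f2 (by omega) k4
  rw [g1, g2]
  have hd0 : 0 ≤ da P ω β N (k - 7 * r) - da P ω β N (k + 7 * r) :=
    sub_nonneg.2 (da_anti he hexp β k1 (by omega) k4)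
  have hDr : (D : ℝ) / 2 ≤ 3 * r := by
    have : (D : ℝ) ≤ 6 * r := by exact_mod_cast hD
    linarith
  have hG2 : ∫ a, GF (wt β (fld ω a)) N b l D ∂P ≤
      3 * r * (da P ω β N (k - 7 * r) - da P ω β N (k + 7 * r)) :=
    hG.trans (mul_le_mul_of_nonneg_right hDr hd0)
  have hlog : - Real.log q ≤ 1 := by
    have := Real.one_sub_inv_le_log_of_pos (show (0 : ℝ) < q by linarith)
    have h2 : q⁻¹ ≤ 2 := by
      rw [inv_le_comm₀ (by linarith) (by norm_num)]
      linarith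
    linarith
  have hprob : IsProbabilityMeasure (P.map (ω 1 0)) :=
    Measure.isProbabilityMeasure_map (he.meas 1 0).aemeasurable
  have hqpos : 0 < 1 - Real.exp (-(β * (b₀ - a₀))) := by
    have : Real.exp (-(β * (b₀ - a₀))) < 1 := by
      rw [Real.exp_lt_one_iff]
      have := mul_pos hβ (sub_pos.2 hab)
      linarith
    linarith
  have e1 : (∫ a, GF (wt β (fld ω a)) N b l D ∂P) / t ≤
      3 * r * (da P ω β N (k - 7 * r) - da P ω β N (k + 7 * r)) / t :=
    div_le_div_of_nonneg_right hG2 ht.le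
  have e2 : (t - Real.log q + 2) * Real.sqrt ((2 * r + 1) *
        (1 / (P.map (ω 1 0)).real (Set.Ici b₀) + 1 / (P.map (ω 1 0)).real (Set.Iic a₀))) /
        (Real.sqrt N * (1 - Real.exp (-(β * (b₀ - a₀))))) ≤
        (t + 3) * Real.sqrt ((2 * r + 1) *
        (1 / (P.map (ω 1 0)).real (Set.Ici b₀) + 1 / (P.map (ω 1 0)).real (Set.Iic a₀))) /
        (Real.sqrt N * (1 - Real.exp (-(β * (b₀ - a₀))))) := by
    apply div_le_div_of_nonneg_right _ (by positivity)
    apply mul_le_mul_of_nonneg_right _ (Real.sqrt_nonneg _)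
    linarith
  linarith

/-- the final computation -/
lemma final_comp {N r Q δ C3 s t : ℝ} (hN : 0 < N) (hr : 3 ≤ r) (hQ : 0 < Q) (hδ : 0 < δ)
    (hs : 0 < s) (hC : 0 < C3) (ht : t = 2 * C3 * r ^ 2 / (N * s))
    (k1 : s / 2 ≤ (t + 3) * Real.sqrt ((2 * r + 1) * Q) / (Real.sqrt N * δ)) :
    (s / 2) ^ 2 ≤ 3 * Q / δ ^ 2 * (8 * C3 ^ 2 / s ^ 2) * (r ^ 5 / N ^ 3) +
        3 * Q / δ ^ 2 * 18 * (r / N) := by
  have ht0 : 0 < t := by rw [ht]; positivity
  have k2 : (s / 2) ^ 2 ≤ ((t + 3) * Real.sqrt ((2 * r + 1) * Q) / (Real.sqrt N * δ)) ^ 2 :=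
    pow_le_pow_left₀ (by positivity) k1 2
  have k5 : ((t + 3) * Real.sqrt ((2 * r + 1) * Q) / (Real.sqrt N * δ)) ^ 2 =
      (t + 3) ^ 2 * ((2 * r + 1) * Q) / (N * δ ^ 2) := by
    rw [div_pow, mul_pow, mul_pow, Real.sq_sqrt (by positivity), Real.sq_sqrt hN.le]
  have k7 : (t + 3) ^ 2 ≤ 2 * t ^ 2 + 18 := by
    have := sq_nonneg (t - 3)
    clear k1 k2 k5 ht
    nlinarith
  have k8 : (2 * r + 1) * Q ≤ (3 * r) * Q := mul_le_mul_of_nonneg_right (by linarith) hQ.le
  have k3 : (t + 3) ^ 2 * ((2 * r + 1) * Q) / (N * δ ^ 2) ≤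
      (2 * t ^ 2 + 18) * ((3 * r) * Q) / (N * δ ^ 2) :=
    div_le_div_of_nonneg_right (mul_le_mul k7 k8 (by positivity) (by positivity)) (by positivity)
  have k4 : (2 * t ^ 2 + 18) * ((3 * r) * Q) / (N * δ ^ 2) =
      3 * Q / δ ^ 2 * (8 * C3 ^ 2 / s ^ 2) * (r ^ 5 / N ^ 3) +
        3 * Q / δ ^ 2 * 18 * (r / N) := by
    rw [ht]
    field_simp
    ring
  rw [← k4]
  rw [k5] at k2
  exact k2.trans k3

/-- directions of confinement for some drift -/
def bad (P : Measure Ω) (ω : ℕ → ℤ → Ω → ℝ) (β κ p q : ℝ) (n0 : ℕ) (ε : ℝ) : Set ℝ :=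
  {v | v ∈ Icc (-1 + ε) (1 - ε) ∧ ∃ h : ℝ, ∀ n : ℕ, n0 ≤ n →
    p ≤ qf P ω β h n v (⌈(n : ℝ) ^ κ⌉₊ + 3) q}

theorem bad_null (he : IsEnv P ω) (hexp : HasExp P ω) (hnc : ¬ ∃ c : ℝ, ∀ᵐ a ∂P, ω 1 0 a = c)
    {β : ℝ} (hβ : 0 < β) {κ : ℝ} (h0 : 0 < κ) (h1 : κ < 3 / 5) {p q : ℝ} (hpp : 2 / 3 < p)
    (hq : 1 / 2 < q) (hq1 : q ≤ 1) (n0 : ℕ) {ε : ℝ} (hε : 0 < ε)
    (hε1 : ε < 1) : volume (bad P ω β κ p q n0 ε) = 0 := by
  by_contra hpos
  obtain ⟨a₀, b₀, hab, hp, hm⟩ := exists_gap (he.meas 1 0) hexp hnc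
  obtain ⟨C, hC0, hC⟩ := am_bound he hexp β
  set U := bad P ω β κ p q n0 ε with hU
  have hsub : U ⊆ Icc (-1 + ε) (1 - ε) := fun v hv => hv.1
  have hfin : volume U ≠ ⊤ := ne_top_of_le_ne_top (by simp) (measure_mono hsub)
  set m := (volume U).toReal with hmd
  have hm0 : 0 < m := ENNReal.toReal_pos hpos hfin
  set Q := 1 / (P.map (ω 1 0)).real (Set.Ici b₀) + 1 / (P.map (ω 1 0)).real (Set.Iic a₀) with hQ
  have hQ0 : 0 < Q := by positivity
  set δ := 1 - Real.exp (-(β * (b₀ - a₀))) with hδ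
  have hδ0 : 0 < δ := by
    have : Real.exp (-(β * (b₀ - a₀))) < 1 := by
      rw [Real.exp_lt_one_iff]
      have := mul_pos hβ (sub_pos.2 hab)
      linarith
    rw [hδ]
    linarith
  set s := 3 * p - 2 with hs
  have hs0 : 0 < s := by rw [hs]; linarith
  -- `C3 r ^ 2 / N` bounds the mean discrepancy
  set C3 := 5376 * C / (ε * m) with hC3
  have hC30 : 0 < C3 := by positivity
  obtain ⟨N, hN, hNn, -, hNε, hsm⟩ := exists_scale h0 h1 n0 (d := 1) (ε := ε)
    (A := 3 * Q / δ ^ 2 * (8 * C3 ^ 2 / s ^ 2)) (B := 3 * Q / δ ^ 2 * 18) (c := (s / 2) ^ 2)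
    one_pos hε (by positivity)
  set r := rad κ N with hr
  have hr3 : 3 ≤ r := by rw [hr]; unfold rad; omega
  have hr3' : (3 : ℝ) ≤ r := by exact_mod_cast hr3
  have hNR : (0 : ℝ) < N := by exact_mod_cast hN
  have h4 : 4 ≤ N * ε := by linarith
  set c := 14 * (r : ℝ) / N with hc
  have hc0 : 0 < c := by positivity
  have hcε : c ≤ ε / 2 := by
    rw [hc, div_le_iff₀ hNR]
    linarith
  have g1 : Hf P ω β N (-1 + ε - c) ≤ 16 * C / ε :=
    (Hf_anti he hexp β hN (by linarith)).trans (Hf_low he hexp β hC0 hC hε hε1 h4)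
  have g2 : -(16 * C / ε) ≤ Hf P ω β N (1 - ε + c) :=
    (Hf_high he hexp β hC0 hC hε hε1 h4).trans (Hf_anti he hexp β hN (by linarith))
  obtain ⟨v, hvU, hvd⟩ := exists_good' (Hf_anti he hexp β hN) (a := -1 + ε) (b := 1 - ε) (c := c)
    (V := U) (by linarith) hc0.le hsub hpos (k := 1792 * C * r / (ε * m * N)) (by
      rw [← hmd]
      calc 2 * c * (Hf P ω β N (-1 + ε - c) - Hf P ω β N (1 - ε + c)) ≤
          2 * c * (32 * C / ε) := by
            apply mul_le_mul_of_nonneg_left _ (by positivity)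
            have : 32 * C / ε = 16 * C / ε + 16 * C / ε := by ring
            linarith
        _ = 896 * C * r / (ε * N) := by rw [hc]; field_simp; ring
        _ < 1792 * C * r / (ε * N) := by
            apply div_lt_div_of_pos_right _ (by positivity)
            have : 0 < C * r := by positivity
            nlinarith
        _ = 1792 * C * r / (ε * m * N) * m := by field_simp)
  set t := 2 * C3 * r ^ 2 / (N * s) with ht
  have ht0 : 0 < t := by positivity
  have g4 : (3 * r * (Hf P ω β N (v - c) - Hf P ω β N (v + c))) / t ≤ s / 2 := by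
    rw [div_le_iff₀ ht0]
    calc 3 * r * (Hf P ω β N (v - c) - Hf P ω β N (v + c)) ≤
        3 * r * (1792 * C * r / (ε * m * N)) := by
          apply mul_le_mul_of_nonneg_left hvd.le (by positivity)
      _ = s / 2 * t := by
          rw [ht, hC3]; field_simp; ring
  obtain ⟨hv1, h, hvh⟩ := hvU
  have hv2 : (-1 + ε) ≤ v ∧ v ≤ 1 - ε := hv1
  have b1 : (r : ℝ) * 16 ≤ N * (1 + v) := by
    have : N * ε ≤ N * (1 + v) := mul_le_mul_of_nonneg_left (by linarith) hNR.le
    linarith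
  have b2 : (r : ℝ) * 16 ≤ N * (1 - v) := by
    have : N * ε ≤ N * (1 - v) := mul_le_mul_of_nonneg_left (by linarith) hNR.le
    linarith
  have key := scale_ineq he hexp hab hp hm hβ h hN hr3 b1 b2 hq hq1 ht0
  rw [← hQ, ← hδ, ← hc] at key
  have q1 : p ≤ qf P ω β h (2 * N) v r q := by
    have := hvh (2 * N) (by omega)
    exact this
  have hrr : ⌈(N : ℝ) ^ κ⌉₊ + 3 ≤ r := by
    rw [hr]
    unfold rad
    apply Nat.add_le_add_right
    apply Nat.ceil_le_ceil
    apply Real.rpow_le_rpow hNR.le _ h0.le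
    push_cast
    linarith
  have q2 : p ≤ qf P ω β h N v r q := (hvh N hNn).trans (qf_mono β h N v hrr _)
  have k1 : s / 2 ≤ (t + 3) * Real.sqrt ((2 * r + 1) * Q) / (Real.sqrt N * δ) := by
    linarith
  have k6 := final_comp hNR hr3' hQ0 hδ0 hs0 hC30 ht k1
  linarith

end Pool.Agent.K1H53.SF
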