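import Pool.Agent.K1H53.SF.FDefs
import Pool.Agent.K1H53.SF.FFinal
import Pool.Agent.K1H53.SD.Link

/-!
From the null set of directions of confinement to the wandering exponent of the free polymer.
-/

open MeasureTheory ProbabilityTheory Filter
open Classical

set_option linter.unusedSectionVars false

namespace Pool.Agent.K1H53.SF

open Pool.Agent.K1H53.SD

lemma Fr_sum (β h : ℝ) (η : ℕ → ℤ → ℝ) (n : ℕ) :
    Fr (wt β η) (dr h) n 0 = ∑ w : Fin n → Bool, Real.exp (h * pos w n + β * energy η w) := by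
  have e : mulK (fun _ _ => if True then (1 : ℝ) else 0) (wt β η) = wt β η := by
    funext i x
    unfold mulK
    simp
  have h1 := Fr_indicator (fun _ _ => True) (wt β η) (dr h) n
  simp only [if_true] at e
  simp only [if_true] at h1
  rw [e] at h1
  rw [h1]
  apply Finset.sum_congr rfl
  intro w _
  rw [if_pos (fun _ _ _ => trivial), pw_energy, Real.exp_add]
  unfold dr
  ring

lemma den_posF (β h : ℝ) (η : ℕ → ℤ → ℝ) (n : ℕ) :
    0 < ∑ w : Fin n → Bool, Real.exp (h * pos w n + β * energy η w) :=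
  Finset.sum_pos (fun w _ => Real.exp_pos _) Finset.univ_nonempty

lemma frProb_le_one (β h : ℝ) (η : ℕ → ℤ → ℝ) (n : ℕ) (A : Set (Fin n → Bool)) :
    frProb β h η A ≤ 1 := by
  unfold frProb
  rw [div_le_one (den_posF β h η n)]
  apply Finset.sum_le_sum
  intro w _
  apply Set.indicator_le_self'
  intro w _
  positivity

lemma frProb_nonneg (β h : ℝ) (η : ℕ → ℤ → ℝ) (n : ℕ) (A : Set (Fin n → Bool)) :
    0 ≤ frProb β h η A := by
  unfold frProb
  apply div_nonneg _ (den_posF β h η n).le
  apply Finset.sum_nonneg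
  intro w _
  apply Set.indicator_nonneg
  intro w _
  positivity

lemma CF_of_prob {β h : ℝ} {η : ℕ → ℤ → ℝ} {n : ℕ} {v R : ℝ} {r : ℕ} {q : ℝ}
    (hR : R ≤ r) (hq : q ≤ frProb β h η (tube n v R)) :
    CF (wt β η) h n 0 v r q := by
  unfold CF
  have hd := den_posF β h η n
  unfold frProb at hq
  rw [le_div_iff₀ hd, ← Fr_sum] at hq
  refine hq.trans ?_
  have e : tubF 0 v r = fun i x => if inF v r i x then 1 else 0 := by
    funext i x
    unfold tubF inF
    simp
  rw [e, Fr_indicator (inF v r)]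
  apply Finset.sum_le_sum
  intro w _
  rw [Set.indicator_apply, pw_energy]
  by_cases hw : w ∈ tube n v R
  · rw [if_pos hw, if_pos]
    · unfold dr
      rw [← Real.exp_add, add_comm]
    · intro i hi1 hi2
      exact (hw i hi2).trans hR
  · rw [if_neg hw]
    split_ifs
    · exact mul_nonneg (Real.exp_pos _).le (dr_pos _ _).le
    · exact le_rfl

variable {Ω : Type*} [MeasurableSpace Ω] {P : Measure Ω} [IsProbabilityMeasure P]
variable {ω : ℕ → ℤ → Ω → ℝ}

lemma measurable_frProb (he : IsEnv P ω) (β h : ℝ) (n : ℕ) (A : Set (Fin n → Bool)) :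
    Measurable (fun x => frProb β h (fun i y => ω i y x) A) := by
  unfold frProb
  have hw : ∀ w : Fin n → Bool, Measurable (fun x => Real.exp (h * pos w n +
      β * energy (fun i y => ω i y x) w)) := fun w =>
    Real.measurable_exp.comp (((measurable_energy he w).const_mul β).const_add _)
  apply Measurable.div
  · apply Finset.measurable_sum
    intro w _
    simp only [Set.indicator_apply]
    split_ifs
    · exact hw w
    · exact measurable_const
  · exact Finset.measurable_sum _ (fun w _ => hw w)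

/-- the key statement -/
theorem ae_good (he : IsEnv P ω) (hexp : HasExp P ω) (hnc : ¬ ∃ c : ℝ, ∀ᵐ a ∂P, ω 1 0 a = c)
    {β : ℝ} (hβ : 0 < β) :
    ∀ᵐ v : ℝ, v ∈ Set.Ioo (-1 : ℝ) 1 → ∀ h κ q p : ℝ, κ < 3 / 5 → 1 / 2 < q → 2 / 3 < p →
      ∃ᶠ n : ℕ in atTop, P.real {x | q ≤ frProb β h (fun i y => ω i y x)
        (tube n v ((n : ℝ) ^ κ))} < p := by
  have hnull : ∀ᵐ v : ℝ, ∀ (κ q p : ℚ) (n0 k : ℕ), 0 < (κ : ℝ) → (κ : ℝ) < 3 / 5 →
      1 / 2 < (q : ℝ) → (q : ℝ) ≤ 1 → 2 / 3 < (p : ℝ) →
      v ∉ bad P ω β κ p q n0 (1 / ((k : ℝ) + 2)) := by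
    rw [ae_all_iff]; intro κ
    rw [ae_all_iff]; intro q
    rw [ae_all_iff]; intro p
    rw [ae_all_iff]; intro n0
    rw [ae_all_iff]; intro k
    by_cases hall : 0 < (κ : ℝ) ∧ (κ : ℝ) < 3 / 5 ∧ 1 / 2 < (q : ℝ) ∧ (q : ℝ) ≤ 1 ∧ 2 / 3 < (p : ℝ)
    · obtain ⟨h0, h1, h2, h3, h4⟩ := hall
      have hk : (0 : ℝ) ≤ k := Nat.cast_nonneg k
      have := bad_null he hexp hnc hβ h0 h1 h4 h2 h3 n0 (ε := 1 / ((k : ℝ) + 2)) (by positivity)
        (by rw [div_lt_one (by positivity)]; linarith)
      rw [← compl_mem_ae_iff] at this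
      filter_upwards [this] with v hv
      exact fun _ _ _ _ _ => hv
    · exact Eventually.of_forall fun v h0 h1 h2 h3 h4 => absurd ⟨h0, h1, h2, h3, h4⟩ hall
  filter_upwards [hnull] with v hv hv1 h κ q p hκ hq hp
  by_contra hcon
  rw [not_frequently] at hcon
  obtain ⟨n0, hn0⟩ := eventually_atTop.1 hcon
  obtain ⟨κ', hκ1, hκ2⟩ := exists_rat_btwn (show max κ 0 < (3 : ℝ) / 5 by
    rw [max_lt_iff]; exact ⟨hκ, by norm_num⟩)
  obtain ⟨q', hq1, hq2⟩ := exists_rat_btwn (show (1 : ℝ) / 2 < min q 1 by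
    rw [lt_min_iff]; exact ⟨hq, by norm_num⟩)
  obtain ⟨p', hp1, hp2⟩ := exists_rat_btwn hp
  have hκ0 : 0 < (κ' : ℝ) := lt_of_le_of_lt (le_max_right _ _) hκ1
  have hκκ : κ ≤ κ' := (le_max_left _ _).trans hκ1.le
  have hqq : (q' : ℝ) ≤ q := hq2.le.trans (min_le_left _ _)
  have hq'1 : (q' : ℝ) ≤ 1 := hq2.le.trans (min_le_right _ _)
  obtain ⟨k, hk⟩ := exists_nat_gt (1 / min (v - -1) (1 - v))
  have hmin : 0 < min (v - -1) (1 - v) := lt_min (by linarith [hv1.1]) (by linarith [hv1.2])
  have hk2 : 1 / ((k : ℝ) + 2) ≤ min (v - -1) (1 - v) := by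
    rw [div_le_iff₀ (by positivity)]
    rw [div_lt_iff₀ hmin] at hk
    nlinarith
  refine hv κ' q' p' (max n0 1) k hκ0 hκ2 hq1 hq'1 hp1 ⟨⟨?_, ?_⟩, h, ?_⟩
  · have := hk2.trans (min_le_left _ _); linarith
  · have := hk2.trans (min_le_right _ _); linarith
  · intro n hn
    have hn1 : 1 ≤ n := (le_max_right _ _).trans hn
    have hn2 := hn0 n ((le_max_left _ _).trans hn)
    rw [not_lt] at hn2
    refine hp2.le.trans (hn2.trans ?_)
    unfold qf
    apply measureReal_mono _ (measure_ne_top _ _)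
    intro x hx
    simp only [Set.mem_ofPred_eq] at hx ⊢
    refine CF_of_prob (R := (n : ℝ) ^ κ) ?_ (hqq.trans hx)
    have h1 : (n : ℝ) ^ κ ≤ (n : ℝ) ^ (κ' : ℝ) :=
      Real.rpow_le_rpow_of_exponent_le (by exact_mod_cast hn1) hκκ
    have h2 := Nat.le_ceil ((n : ℝ) ^ (κ' : ℝ))
    push_cast
    linarith

/-- the exponent of a direction with the conclusion of `ae_good` -/
theorem exp_of_good (he : IsEnv P ω) {β h v : ℝ} (h1 : -1 ≤ v) (h2 : v ≤ 1)
    (hg : ∀ κ q p : ℝ, κ < 3 / 5 → 1 / 2 < q → 2 / 3 < p →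
      ∃ᶠ n : ℕ in atTop, P.real {x | q ≤ frProb β h (fun i y => ω i y x)
        (tube n v ((n : ℝ) ^ κ))} < p) : 3 / 5 ≤ wanderingExpF P ω β h v := by
  unfold wanderingExpF
  apply le_csInf
  · refine ⟨2, by norm_num, ?_⟩
    have : ∀ x, liminf (fun n : ℕ => ENNReal.ofReal (frProb β h
        (fun i y => ω i y x) (tube n v ((n : ℝ) ^ (2 : ℝ))))) atTop = 1 := by
      intro x
      apply Tendsto.liminf_eq
      apply tendsto_const_nhds.congr'
      filter_upwards [eventually_ge_atTop 2] with n hn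
      have hall : tube n v ((n : ℝ) ^ (2 : ℝ)) = Set.univ := by
        rw [Set.eq_univ_iff_forall]
        intro w i hi
        have hp := abs_pos_le w i
        have hp2 : |(pos w i : ℝ)| ≤ n := by exact_mod_cast hp
        have hn2 : (2 : ℝ) ≤ n := by exact_mod_cast hn
        have hin : (i : ℝ) ≤ n := by exact_mod_cast hi
        have hv : |v| ≤ 1 := abs_le.2 ⟨h1, h2⟩
        rw [Real.rpow_two]
        calc |(pos w i : ℝ) - i * v| ≤ |(pos w i : ℝ)| + |i * v| := abs_sub _ _
          _ = |(pos w i : ℝ)| + i * |v| := by rw [abs_mul, Nat.abs_cast]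
          _ ≤ n + n * 1 := add_le_add hp2 (mul_le_mul hin hv (abs_nonneg _) (by positivity))
          _ ≤ (n : ℝ) ^ 2 := by nlinarith
      unfold frProb
      rw [hall]
      simp only [Set.indicator_univ]
      rw [div_self (den_posF β h _ n).ne', ENNReal.ofReal_one]
    simp only [this]
    simp
  · rintro a ⟨ha0, ha⟩
    by_contra hcon
    push Not at hcon
    have hf := hg a (7 / 8) (7 / 8) hcon (by norm_num) (by norm_num)
    have hle : ∫⁻ x, liminf (fun n : ℕ => ENNReal.ofReal (frProb β h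
        (fun i y => ω i y x) (tube n v ((n : ℝ) ^ a)))) atTop ∂P ≤
        ENNReal.ofReal (63 / 64) := by
      refine (lintegral_liminf_le (fun n => (measurable_frProb he β h n _).ennreal_ofReal)).trans ?_
      apply liminf_le_of_frequently_le'
      apply hf.mono
      intro n hn
      set p := fun x => frProb β h (fun i y => ω i y x) (tube n v ((n : ℝ) ^ a)) with hp
      have mp : Measurable p := measurable_frProb he β h n _
      set A := {x | 7 / 8 ≤ p x} with hA
      have mA : MeasurableSet A := measurableSet_le measurable_const mp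
      have hp1 : ∀ x, p x ≤ 1 := fun x => frProb_le_one β h _ n _
      have hp0 : ∀ x, 0 ≤ p x := fun x => frProb_nonneg β h _ n _
      have hint : Integrable p P := by
        refine Integrable.mono' (integrable_const (1 : ℝ)) mp.aestronglyMeasurable ?_
        exact Eventually.of_forall fun x => by
          rw [Real.norm_eq_abs, abs_of_nonneg (hp0 x)]; exact hp1 x
      rw [← ofReal_integral_eq_lintegral_ofReal hint (Eventually.of_forall hp0)]
      apply ENNReal.ofReal_le_ofReal
      have hind : ∀ x, p x ≤ 7 / 8 + A.indicator (fun _ => (1 : ℝ) / 8) x := by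
        intro x
        by_cases hx : x ∈ A
        · rw [Set.indicator_of_mem hx]
          linarith [hp1 x]
        · rw [Set.indicator_of_notMem hx]
          have : ¬ (7 / 8 ≤ p x) := hx
          linarith
      have hii : Integrable (fun x => 7 / 8 + A.indicator (fun _ => (1 : ℝ) / 8) x) P :=
        (integrable_const _).add ((integrable_const _).indicator mA)
      calc ∫ x, p x ∂P ≤ ∫ x, (7 / 8 + A.indicator (fun _ => (1 : ℝ) / 8) x) ∂P :=
            integral_mono hint hii hind
        _ = 7 / 8 + P.real A * (1 / 8) := by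
            rw [integral_add (integrable_const _) ((integrable_const _).indicator mA),
              integral_indicator mA]
            simp
        _ ≤ 63 / 64 := by
            have : P.real A < 7 / 8 := hn
            linarith
    rw [ha] at hle
    have : (1 : ENNReal) = ENNReal.ofReal 1 := ENNReal.ofReal_one.symm
    rw [this, ENNReal.ofReal_le_ofReal_iff (by norm_num)] at hle
    norm_num at hle

end Pool.Agent.K1H53.SF
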