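import Pool.Agent.K1H53.SF.FDet

/-!
Tubes, barriers and confinement of the free polymer with drift.
-/

open Classical

namespace Pool.Agent.K1H53.SF

open Pool.Agent.K1H53.SD

/-- terminal weight of the drift `h` -/
noncomputable def dr (h : ℝ) : ℤ → ℝ := fun x => Real.exp (h * x)

lemma dr_pos (h : ℝ) (x : ℤ) : 0 < dr h x := Real.exp_pos _

/-- indicator of the tube of radius `r` around the line of slope `v` from `x0` -/
noncomputable def tubF (x0 : ℤ) (v : ℝ) (r : ℕ) : ℕ → ℤ → ℝ :=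
  fun i x => if |(x : ℝ) - x0 - i * v| ≤ r then 1 else 0

/-- indicator of the region above the upper boundary of the tube, after time `N` -/
noncomputable def barF (N : ℕ) (v : ℝ) (r : ℕ) : ℕ → ℤ → ℝ :=
  fun i x => if N < i then (if i * v + r < x then 1 else 0) else 1

lemma tubF_nonneg (x0 : ℤ) (v : ℝ) (r : ℕ) (i : ℕ) (x : ℤ) : 0 ≤ tubF x0 v r i x := by
  unfold tubF; split_ifs <;> norm_num

lemma tubF_le_one (x0 : ℤ) (v : ℝ) (r : ℕ) (i : ℕ) (x : ℤ) : tubF x0 v r i x ≤ 1 := by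
  unfold tubF; split_ifs <;> norm_num

lemma barF_nonneg (N : ℕ) (v : ℝ) (r : ℕ) (i : ℕ) (x : ℤ) : 0 ≤ barF N v r i x := by
  unfold barF; split_ifs <;> norm_num

lemma barF_le_one (N : ℕ) (v : ℝ) (r : ℕ) (i : ℕ) (x : ℤ) : barF N v r i x ≤ 1 := by
  unfold barF; split_ifs <;> norm_num

lemma LR_barF {K : ℕ → ℤ → ℝ} (hK : ∀ i x, 0 ≤ K i x) (N : ℕ) (v : ℝ) (r i : ℕ) :
    LR (K i) (mulK (barF N v r) K i) := by
  intro a k
  unfold mulK
  have hmono : barF N v r i a ≤ barF N v r i (a + 2 * k) := by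
    unfold barF
    split_ifs with h1 h2 h3
    · exact le_rfl
    · exfalso
      apply h3
      push_cast
      have : (0 : ℝ) ≤ k := Nat.cast_nonneg k
      linarith
    · norm_num
    · exact le_rfl
    · exact le_rfl
  calc barF N v r i a * K i a * K i (a + 2 * k)
      = barF N v r i a * (K i a * K i (a + 2 * k)) := by ring
    _ ≤ barF N v r i (a + 2 * k) * (K i a * K i (a + 2 * k)) :=
        mul_le_mul_of_nonneg_right hmono (mul_nonneg (hK _ _) (hK _ _))
    _ = _ := by ring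

/-- confinement of the free polymer with drift `h`, started from `x0`, of length `n`, to the tube of
radius `r` around the line of slope `v`, with polymer probability at least `q` -/
def CF (K : ℕ → ℤ → ℝ) (h : ℝ) (n : ℕ) (x0 : ℤ) (v : ℝ) (r : ℕ) (q : ℝ) : Prop :=
  q * Fr K (dr h) n x0 ≤ Fr (mulK (tubF x0 v r) K) (dr h) n x0

variable {K : ℕ → ℤ → ℝ} {N : ℕ} {v : ℝ} {b l D : ℤ} {r : ℕ}

/-- the tube passes at time `N` through the block -/
lemma tube_block (hK : ∀ i x, 0 ≤ K i x) {φ : ℤ → ℝ} (hφ : ∀ x, 0 ≤ φ x) (hN : 1 ≤ N)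
    {x0 a : ℤ} (h1 : (a : ℝ) ≤ x0 + N * v - r) (h2 : x0 + N * v + r ≤ (a : ℝ) + l)
    (h3 : x0 - N ≤ a) (h4 : a + l ≤ x0 + N) :
    Fr (mulK (tubF x0 v r) K) φ (2 * N) x0 ≤ MF K φ N x0 a l := by
  rw [two_mul N, Fr_glue]
  set T := mulK (tubF x0 v r) K with hT
  have hT0 : ∀ i x, 0 ≤ T i x := mulK_nonneg (tubF_nonneg _ _ _) hK
  have hTK : ∀ i x, T i x ≤ K i x := mulK_le (tubF_le_one _ _ _) hK
  have hzero : ∀ m, m ∉ Finset.Icc a (a + l) → Z T x0 N m = 0 := by
    intro m hm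
    obtain ⟨n, rfl⟩ : ∃ n, N = n + 1 := ⟨N - 1, by omega⟩
    rw [Z_succ]
    have : T (n + 1) m = 0 := by
      rw [hT]
      unfold mulK tubF
      rw [if_neg, zero_mul]
      intro h
      apply hm
      rw [abs_le] at h
      rw [Finset.mem_Icc]
      constructor
      · have : (a : ℝ) ≤ m := by linarith [h.1]
        exact_mod_cast this
      · have : (m : ℝ) ≤ ((a + l : ℤ) : ℝ) := by push_cast; linarith [h.2]
        exact_mod_cast this
    rw [this, zero_mul]
  unfold MF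
  have hsub : Finset.Icc a (a + l) ⊆ Finset.Icc (x0 - (N : ℤ)) (x0 + N) := by
    intro m hm
    rw [Finset.mem_Icc] at hm ⊢
    omega
  rw [← Finset.sum_subset hsub]
  · apply Finset.sum_le_sum
    intro m _
    exact mul_le_mul (Z_mono hT0 hTK _ _ _)
      (Fr_mono (fun _ _ => hT0 _ _) (fun _ _ => hTK _ _) hφ _ _)
      (Fr_nonneg (fun _ _ => hT0 _ _) hφ _ _) (Z_nonneg hK _ _ _)
  · intro m _ hm
    rw [hzero m hm, zero_mul]

lemma two_blocks (hK : ∀ i x, 0 ≤ K i x) {φ : ℤ → ℝ} (hφ : ∀ x, 0 ≤ φ x) {x0 : ℤ}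
    (hlD : l < D) (h1 : x0 - N ≤ b) (h2 : b + D + l ≤ x0 + N) :
    MF K φ N x0 b l + MF K φ N x0 (b + D) l ≤ Fr K φ (2 * N) x0 := by
  rw [two_mul N, Fr_glue]
  unfold MF
  by_cases hl : 0 ≤ l
  · rw [← Finset.sum_union]
    · apply Finset.sum_le_sum_of_subset_of_nonneg
      · intro m hm
        rw [Finset.mem_union, Finset.mem_Icc, Finset.mem_Icc] at hm
        rw [Finset.mem_Icc]
        omega
      · intro m _ _
        exact mul_nonneg (Z_nonneg hK _ _ _) (Fr_nonneg (fun _ _ => hK _ _) hφ _ _)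
    · rw [Finset.disjoint_left]
      intro m h1 h2
      rw [Finset.mem_Icc] at h1 h2
      omega
  · push Not at hl
    rw [Finset.Icc_eq_empty (by omega), Finset.Icc_eq_empty (by omega)]
    simp only [Finset.sum_empty, add_zero]
    exact Finset.sum_nonneg fun _ _ =>
      mul_nonneg (Z_nonneg hK _ _ _) (Fr_nonneg (fun _ _ => hK _ _) hφ _ _)

/-- on the confinement event after time `N` the barrier costs only a factor -/
lemma barrier_block (hK : ∀ i x, 0 < K i x) {h : ℝ} (g : Gm N v b l D r) {q : ℝ}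
    (h2 : CF (sh N K) h N (b + D) v r q) :
    q * MF K (dr h) N 0 (b + D) l ≤ MF (mulK (barF N v r) K) (dr h) N 0 (b + D) l := by
  have hK' : ∀ i x, 0 ≤ K i x := fun i x => (hK i x).le
  have hφ : ∀ x, 0 ≤ dr h x := fun x => (dr_pos h x).le
  set B := mulK (barF N v r) K with hB
  have hB0 : ∀ i x, 0 ≤ B i x := mulK_nonneg (barF_nonneg _ _ _) hK'
  have hup := g.up
  have hpar := g.hb
  have hpar2 := g.hD
  have k1 : q * Fr (sh N K) (dr h) N (b + D) ≤ Fr (sh N B) (dr h) N (b + D) := by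
    refine le_trans h2 ?_
    apply Fr_mono (mulK_nonneg (tubF_nonneg _ _ _) (fun _ _ => hK' _ _)) _ hφ
    intro i x
    unfold mulK sh
    rw [hB]
    unfold mulK
    apply mul_le_mul_of_nonneg_right _ (hK' _ _)
    unfold tubF barF
    split_ifs with c1 c2 c3
    · exact le_rfl
    · exfalso
      apply c3
      rw [abs_le] at c1
      push_cast at c1 ⊢
      linarith [c1.1]
    · exact le_rfl
    · norm_num
    · exact le_rfl
    · norm_num
  have pos2 : 0 < Fr (sh N K) (dr h) N (b + D) := Fr_pos (fun _ _ => hK _ _) (dr_pos h) _ _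
  have f2 : ∀ m, b + D ≤ m → (m - (b + D)) % 2 = 0 →
      q * Fr (sh N K) (dr h) N m ≤ Fr (sh N B) (dr h) N m := fun m h1 h2 =>
    cmp_Fr (K := sh N K) (L := sh N B) (fun _ _ => hK' _ _) (fun _ _ => hB0 _ _)
      (fun i => LR_barF hK' N v r _) hφ h1 h2 pos2 k1
  have f1 : ∀ m, Z B 0 N m = Z K 0 N m := by
    intro m
    apply Z_congr
    intro i x _ hi _
    rw [hB]
    unfold mulK barF
    rw [if_neg (by omega), one_mul]
  unfold MF
  rw [Finset.mul_sum]
  apply Finset.sum_le_sum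
  intro m hm
  rw [Finset.mem_Icc] at hm
  rw [f1 m]
  by_cases hp : (m - N) % 2 = 0
  · have a2 := f2 m (by omega) (by omega)
    calc q * (Z K 0 N m * Fr (sh N K) (dr h) N m)
        = Z K 0 N m * (q * Fr (sh N K) (dr h) N m) := by ring
      _ ≤ Z K 0 N m * Fr (sh N B) (dr h) N m :=
          mul_le_mul_of_nonneg_left a2 (Z_nonneg hK' _ _ _)
  · rw [Z_parity K 0 N m (by omega), zero_mul, mul_zero, zero_mul]

lemma barrier_le (hK : ∀ i x, 0 < K i x) {h : ℝ} (a : ℤ) :
    MF (mulK (barF N v r) K) (dr h) N 0 a l ≤ MF K (dr h) N 0 a l := by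
  have hK' : ∀ i x, 0 ≤ K i x := fun i x => (hK i x).le
  have hφ : ∀ x, 0 ≤ dr h x := fun x => (dr_pos h x).le
  have h0 := mulK_nonneg (barF_nonneg N v r) hK'
  have h1 := mulK_le (barF_le_one N v r) hK'
  unfold MF
  apply Finset.sum_le_sum
  intro m _
  exact mul_le_mul (Z_mono h0 h1 _ _ _) (Fr_mono (fun _ _ => h0 _ _) (fun _ _ => h1 _ _) hφ _ _)
    (Fr_nonneg (fun _ _ => h0 _ _) hφ _ _) (Z_nonneg hK' _ _ _)

/-- the deterministic conclusion -/
lemma det_core (hK : ∀ i x, 0 < K i x) {h : ℝ} (g : Gm N v b l D r) {q t : ℝ} (hq : 1 / 2 < q)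
    (h1 : CF K h (2 * N) 0 v r q) (h2 : CF K h (2 * N) D v r q)
    (h3 : CF (sh N K) h N (b + D) v r q) (h4 : GF K N b l D ≤ t) :
    0 < Fr (mulK (tubF 0 v r) K) (dr h) (2 * N) 0 ∧
    Real.log (MF (mulK (barF N v r) K) (dr h) N 0 (b + D) l) -
      Real.log (Fr (mulK (tubF 0 v r) K) (dr h) (2 * N) 0) ∈ Set.Icc (Real.log q - t) 0 := by
  have hK' : ∀ i x, 0 ≤ K i x := fun i x => (hK i x).le
  have hφ : ∀ x, 0 ≤ dr h x := fun x => (dr_pos h x).le
  have hq0 : 0 < q := by linarith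
  obtain ⟨w1, w2, w3, w4, w5, w6⟩ := g.Zpos hK
  have c1 := g.hb; have c2 := g.hl; have c3 := g.hl0; have c4 := g.hD; have c5 := g.hlD
  have c6 := g.b1; have c7 := g.b2
  have ghi := g.hi
  have glo := g.lo
  set ZT := Fr (mulK (tubF 0 v r) K) (dr h) (2 * N) 0 with hZT
  have m1 : 0 < MF K (dr h) N 0 b l := MF_pos hK (dr_pos h) c3 w4
  have m2 : 0 < MF K (dr h) N 0 (b + D) l := MF_pos hK (dr_pos h) c3 w5
  have Zpos : 0 < Fr K (dr h) (2 * N) 0 := Fr_pos hK (dr_pos h) _ _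
  have ZTpos : 0 < ZT := lt_of_lt_of_le (mul_pos hq0 Zpos) h1
  have a1 : ZT ≤ MF K (dr h) N 0 b l := by
    apply tube_block hK' hφ g.hN
    · push_cast; linarith
    · push_cast; linarith
    · omega
    · omega
  have a2 : Fr (mulK (tubF D v r) K) (dr h) (2 * N) D ≤ MF K (dr h) N D (b + D) l := by
    apply tube_block hK' hφ g.hN
    · push_cast; linarith
    · push_cast; linarith
    · omega
    · omega
  have a3 := two_blocks hK' hφ (x0 := 0) (b := b) (l := l) (D := D) c5 (N := N) (by omega) (by omega)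
  have a4 := two_blocks hK' hφ (x0 := D) (b := b) (l := l) (D := D) c5 (N := N) (by omega) (by omega)
  have m3 : 0 ≤ MF K (dr h) N D (b + D) l := MF_nonneg hK' hφ _ _ _ _
  have m4 : 0 ≤ MF K (dr h) N D b l := MF_nonneg hK' hφ _ _ _ _
  have b1 : MF K (dr h) N D b l ≤ MF K (dr h) N D (b + D) l := by
    have := h2
    unfold CF at this
    have h5 : q * (MF K (dr h) N D b l + MF K (dr h) N D (b + D) l) ≤
        MF K (dr h) N D (b + D) l := (mul_le_mul_of_nonneg_left a4 hq0.le).trans (this.trans a2)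
    nlinarith
  have b2 := MF_comp hK (dr_pos h) g b1
  have b3 := barrier_block hK g h3
  have b4 := barrier_le (N := N) (v := v) (l := l) (r := r) hK (h := h) (b + D)
  set M' := MF (mulK (barF N v r) K) (dr h) N 0 (b + D) l with hM'
  have M'pos : 0 < M' := lt_of_lt_of_le (by positivity) b3
  refine ⟨ZTpos, ?_, ?_⟩
  · have l1 := Real.log_le_log (by positivity) b3
    rw [Real.log_mul hq0.ne' m2.ne'] at l1
    have l2 := Real.log_le_log ZTpos a1
    linarith
  · have hle : M' ≤ ZT := by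
      have h1' : q * Fr K (dr h) (2 * N) 0 ≤ ZT := h1
      nlinarith
    have := Real.log_le_log M'pos hle
    linarith

end Pool.Agent.K1H53.SF
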