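import Pool.Agent.K1H53.SF.FWin

/-!
Anti-concentration and the main inequality at a fixed scale for the free polymer.
-/

open MeasureTheory ProbabilityTheory TH967.DP
open Classical

set_option linter.unusedSectionVars false

namespace Pool.Agent.K1H53.SF

open Pool.Agent.K1H53.SD

lemma Fr_congr_box {K L : ℕ → ℤ → ℝ} {N : ℕ} (h : ∀ i x, (i, x) ∈ Bx N → K i x = L i x)
    (φ : ℤ → ℝ) : Fr K φ (2 * N) 0 = Fr L φ (2 * N) 0 := by
  unfold Fr
  apply Finset.sum_congr rfl
  intro z _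
  rw [Z_congr_box h]

lemma MF_congr_box {K L : ℕ → ℤ → ℝ} {N : ℕ} (h : ∀ i x, (i, x) ∈ Bx N → K i x = L i x)
    (φ : ℤ → ℝ) {b l : ℤ} (hb : -(N : ℤ) ≤ b) (hl : b + l ≤ N) :
    MF K φ N 0 b l = MF L φ N 0 b l := by
  unfold MF
  apply Finset.sum_congr rfl
  intro m hm
  rw [Finset.mem_Icc] at hm
  congr 1
  · apply Z_congr
    intro i x h1 h2 h3
    apply h
    unfold Bx
    rw [Finset.mem_product, Finset.mem_Icc, Finset.mem_Icc]
    rw [abs_le] at h3
    refine ⟨⟨h1, ?_⟩, ?_, ?_⟩ <;> simp only <;> omega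
  · unfold Fr
    apply Finset.sum_congr rfl
    intro z _
    congr 1
    apply Z_congr
    intro i x h1 h2 h3
    apply h
    unfold Bx
    rw [Finset.mem_product, Finset.mem_Icc, Finset.mem_Icc]
    rw [abs_le] at h3
    refine ⟨⟨?_, ?_⟩, ?_, ?_⟩ <;> simp only <;> omega

variable {Ω : Type*} [MeasurableSpace Ω] {P : Measure Ω} [IsProbabilityMeasure P]
variable {ω : ℕ → ℤ → Ω → ℝ}

/-- the anti-concentration estimate -/
theorem conc (he : IsEnv P ω) {a₀ b₀ : ℝ} (hab : a₀ < b₀)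
    (hp : 0 < (P.map (ω 1 0)).real (Set.Ici b₀)) (hm : 0 < (P.map (ω 1 0)).real (Set.Iic a₀))
    {β : ℝ} (hβ : 0 < β) (h : ℝ) {N : ℕ} (hN : 1 ≤ N) (v : ℝ) (r : ℕ) {b l : ℤ}
    (hb : -(N : ℤ) ≤ b) (hl : b + l ≤ N) {lo hi : ℝ} (hlh : lo ≤ hi) :
    P.real {a | 0 < Fr (mulK (tubF 0 v r) (wt β (fld ω a))) (dr h) (2 * N) 0 ∧
      Real.log (MF (mulK (barF N v r) (wt β (fld ω a))) (dr h) N 0 b l) -
        Real.log (Fr (mulK (tubF 0 v r) (wt β (fld ω a))) (dr h) (2 * N) 0) ∈
          Set.Icc lo hi} ≤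
      (hi - lo + 2) * Real.sqrt ((2 * r + 1) *
        (1 / (P.map (ω 1 0)).real (Set.Ici b₀) + 1 / (P.map (ω 1 0)).real (Set.Iic a₀))) /
        (Real.sqrt N * (1 - Real.exp (-(β * (b₀ - a₀))))) := by
  set μ := P.map (ω 1 0) with hμ
  have hprob : IsProbabilityMeasure μ := Measure.isProbabilityMeasure_map (he.meas 1 0).aemeasurable
  set Kc := 1 / μ.real (Set.Ici b₀) + 1 / μ.real (Set.Iic a₀) with hKc
  set q := 1 - Real.exp (-(β * (b₀ - a₀))) with hq
  have hKpos : 0 < Kc := by positivity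
  have hqpos : 0 < q := by
    rw [hq]
    have : Real.exp (-(β * (b₀ - a₀))) < 1 := by
      rw [Real.exp_lt_one_iff]
      have := mul_pos hβ (sub_pos.2 hab)
      linarith
    linarith
  have hNR : (0 : ℝ) < N := by exact_mod_cast hN
  set Bd := (hi - lo + 2) * Real.sqrt ((2 * r + 1) * Kc) / (Real.sqrt N * q) with hBd
  have hBd0 : 0 ≤ Bd := by
    rw [hBd]
    have : 0 ≤ hi - lo := by linarith
    positivity
  set f1 : Ω → (S1 N v r → ℝ) := fun a s => ω s.1.1 s.1.2 a with hf1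
  set f2 : Ω → (S2 N v r → ℝ) := fun a s => ω s.1.1 s.1.2 a with hf2
  have mf1 : Measurable f1 := by
    rw [measurable_pi_iff]; intro s; exact he.meas _ _
  have mf2 : Measurable f2 := by
    rw [measurable_pi_iff]; intro s; exact he.meas _ _
  have hgl : ∀ a i x, (i, x) ∈ Bx N → gl N v r (f1 a) (f2 a) i x = ω i x a := by
    intro a i x hx
    exact gl_env N v r (fld ω a) hx
  -- congruences
  have cg1 : ∀ a, Fr (mulK (tubF 0 v r) (wt β (fld ω a))) (dr h) (2 * N) 0 =
      Fr (mulK (tubF 0 v r) (wt β (gl N v r (f1 a) (f2 a)))) (dr h) (2 * N) 0 := by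
    intro a
    apply Fr_congr_box
    intro i x hx
    unfold mulK wt
    rw [hgl a i x hx]
  have cg2 : ∀ a, MF (mulK (barF N v r) (wt β (fld ω a))) (dr h) N 0 b l =
      MF (mulK (barF N v r) (wt β (gl N v r (f1 a) (f2 a)))) (dr h) N 0 b l := by
    intro a
    apply MF_congr_box _ _ hb hl
    intro i x hx
    unfold mulK wt
    rw [hgl a i x hx]
  by_cases hne : Nonempty (Wt N v r)
  swap
  · -- no tube paths
    have hz : ∀ a, Fr (mulK (tubF 0 v r) (wt β (fld ω a))) (dr h) (2 * N) 0 = 0 := by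
      intro a
      rw [cg1 a, Fr_gl]
      unfold ZZw
      have : IsEmpty (Wt N v r) := not_nonempty_iff.1 hne
      exact Finset.sum_of_isEmpty _
    have : {a | 0 < Fr (mulK (tubF 0 v r) (wt β (fld ω a))) (dr h) (2 * N) 0 ∧
      Real.log (MF (mulK (barF N v r) (wt β (fld ω a))) (dr h) N 0 b l) -
        Real.log (Fr (mulK (tubF 0 v r) (wt β (fld ω a))) (dr h) (2 * N) 0) ∈
          Set.Icc lo hi} = ∅ := by
      ext a
      simp only [Set.mem_ofPred_eq, Set.mem_empty_iff_false, iff_false, not_and]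
      intro h1
      rw [hz a] at h1
      exact absurd h1 (lt_irrefl _)
    rw [this]
    simpa using hBd0
  have hne1 : Nonempty (S1 N v r) := by
    obtain ⟨w⟩ := hne
    have h1 := card_vis w
    have h3 : 0 < (vis w).card := by omega
    obtain ⟨s, _⟩ := Finset.card_pos.1 h3
    exact ⟨s⟩
  -- the event in the product space
  set E : Set ((S1 N v r → ℝ) × (S2 N v r → ℝ)) := {p |
    Real.log (MF (mulK (barF N v r) (wt β (gl N v r p.1 p.2))) (dr h) N 0 b l) -
      Real.log (Fr (mulK (tubF 0 v r) (wt β (gl N v r p.1 p.2))) (dr h) (2 * N) 0) ∈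
        Set.Icc lo hi} with hE
  have mwt : ∀ (c : ℕ → ℤ → ℝ) (i : ℕ) (x : ℤ), Measurable
      (fun p : (S1 N v r → ℝ) × (S2 N v r → ℝ) => mulK c (wt β (gl N v r p.1 p.2)) i x) := by
    intro c i x
    unfold mulK wt
    exact ((Real.measurable_exp.comp ((measurable_gl N v r i x).const_mul β))).const_mul _
  have mE : MeasurableSet E := by
    apply MeasurableSet.preimage measurableSet_Icc
    exact (Real.measurable_log.comp (measurable_MF (mwt _) _ _ _ _ _)).sub
      (Real.measurable_log.comp (measurable_Fr (mwt _) _ _ _))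
  have hind : IndepFun f1 f2 P :=
    he.indep.indepFun_finset (S1 N v r) (S2 N v r) (disj N v r) (fun s => he.meas _ _)
  have hlaw := (indepFun_iff_map_prod_eq_prod_map_map mf1.aemeasurable mf2.aemeasurable).1 hind
  have hslice : ∀ u : S2 N v r → ℝ, (P.map f1) ((fun w => (w, u)) ⁻¹' E) ≤ ENNReal.ofReal Bd := by
    intro u
    have hl1 : P.map f1 = Measure.pi (fun _ : S1 N v r => μ) := law_S he (S1 N v r)
    rw [hl1]
    set A := Real.log (MF (mulK (barF N v r) (wt β (gl N v r (fun _ => 0) u))) (dr h) N 0 b l)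
      with hA
    have hpre : (fun w => (w, u)) ⁻¹' E ⊆ YYw β (cw β h u) (vis (N := N) (v := v) (r := r)) ⁻¹'
        Set.Icc (A - hi) (A - hi + (hi - lo)) := by
      intro w hu
      simp only [hE, Set.mem_preimage, Set.mem_ofPred_eq, Set.mem_Icc] at hu ⊢
      rw [mulK_bar_gl β N v r w (fun _ => 0) u, ← hA, Fr_gl] at hu
      unfold YYw
      constructor <;> linarith [hu.1, hu.2]
    have hac := anti_concw (c := cw β h u) (fun w => cw_pos β h u w) μ hab hp hm hβ
      (vis (N := N) (v := v) (r := r)) (m := N) (fun w => card_vis w) (y := A - hi)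
      (L := hi - lo) (by linarith)
    rw [← hKc, ← hq] at hac
    set X := (Measure.pi fun _ : S1 N v r => μ).real
      (YYw β (cw β h u) (vis (N := N) (v := v) (r := r)) ⁻¹' Set.Icc (A - hi) (A - hi + (hi - lo)))
      with hX
    have hXle : X ≤ Bd := by
      have hcard : (Fintype.card (S1 N v r) : ℝ) ≤ (2 * r + 1) * N := by
        rw [Fintype.card_coe]
        have := card_S1 N v r
        exact_mod_cast this
      have hsq : Real.sqrt (Fintype.card (S1 N v r) * Kc) ≤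
          Real.sqrt N * Real.sqrt ((2 * r + 1) * Kc) := by
        rw [← Real.sqrt_mul hNR.le]
        apply Real.sqrt_le_sqrt
        calc (Fintype.card (S1 N v r) : ℝ) * Kc ≤ ((2 * r + 1) * N) * Kc :=
              mul_le_mul_of_nonneg_right hcard hKpos.le
          _ = N * ((2 * r + 1) * Kc) := by ring
      have hsm : 0 < Real.sqrt N := Real.sqrt_pos.2 hNR
      have hsm2 : Real.sqrt N * Real.sqrt N = N := Real.mul_self_sqrt hNR.le
      have hX0 : 0 ≤ X := measureReal_nonneg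
      rw [hBd, le_div_iff₀ (by positivity)]
      have hL2 : 0 ≤ hi - lo + 2 := by linarith
      have h1 : Real.sqrt N * (X * (Real.sqrt N * q)) ≤
          Real.sqrt N * ((hi - lo + 2) * Real.sqrt ((2 * r + 1) * Kc)) := by
        calc Real.sqrt N * (X * (Real.sqrt N * q)) = (Real.sqrt N * Real.sqrt N) * q * X := by ring
          _ = N * q * X := by rw [hsm2]
          _ ≤ (hi - lo + 2) * Real.sqrt (Fintype.card (S1 N v r) * Kc) := hac
          _ ≤ (hi - lo + 2) * (Real.sqrt N * Real.sqrt ((2 * r + 1) * Kc)) :=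
              mul_le_mul_of_nonneg_left hsq hL2
          _ = _ := by ring
      exact le_of_mul_le_mul_left h1 hsm
    calc (Measure.pi fun _ : S1 N v r => μ) ((fun w => (w, u)) ⁻¹' E)
        ≤ (Measure.pi fun _ : S1 N v r => μ) (YYw β (cw β h u) (vis (N := N) (v := v) (r := r)) ⁻¹'
          Set.Icc (A - hi) (A - hi + (hi - lo))) := measure_mono hpre
      _ = ENNReal.ofReal X := by
          rw [hX, measureReal_def, ENNReal.ofReal_toReal (measure_ne_top _ _)]
      _ ≤ ENNReal.ofReal Bd := ENNReal.ofReal_le_ofReal hXle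
  have hPE : P {a | (f1 a, f2 a) ∈ E} ≤ ENNReal.ofReal Bd := by
    have e1 : P {a | (f1 a, f2 a) ∈ E} = (P.map (fun a => (f1 a, f2 a))) E := by
      rw [Measure.map_apply (mf1.prodMk mf2) mE]
      rfl
    have hp1 : IsProbabilityMeasure (P.map f1) :=
      Measure.isProbabilityMeasure_map mf1.aemeasurable
    have hp2 : IsProbabilityMeasure (P.map f2) :=
      Measure.isProbabilityMeasure_map mf2.aemeasurable
    rw [e1, hlaw, Measure.prod_apply_symm mE]
    calc ∫⁻ u, (P.map f1) ((fun w => (w, u)) ⁻¹' E) ∂(P.map f2)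
        ≤ ∫⁻ u, ENNReal.ofReal Bd ∂(P.map f2) := lintegral_mono (fun u => hslice u)
      _ = ENNReal.ofReal Bd := by rw [lintegral_const, measure_univ, mul_one]
  have hsub : {a | 0 < Fr (mulK (tubF 0 v r) (wt β (fld ω a))) (dr h) (2 * N) 0 ∧
      Real.log (MF (mulK (barF N v r) (wt β (fld ω a))) (dr h) N 0 b l) -
        Real.log (Fr (mulK (tubF 0 v r) (wt β (fld ω a))) (dr h) (2 * N) 0) ∈
          Set.Icc lo hi} ⊆ {a | (f1 a, f2 a) ∈ E} := by
    rintro a ⟨_, h2⟩
    simp only [hE, Set.mem_ofPred_eq]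
    rw [← cg1 a, ← cg2 a]
    exact h2
  calc _ ≤ P.real {a | (f1 a, f2 a) ∈ E} := measureReal_mono hsub
    _ ≤ Bd := by
        rw [measureReal_def]
        exact ENNReal.toReal_le_of_le_ofReal hBd0 hPE

theorem core (he : IsEnv P ω) (hexp : HasExp P ω) {a₀ b₀ : ℝ} (hab : a₀ < b₀)
    (hp : 0 < (P.map (ω 1 0)).real (Set.Ici b₀)) (hm : 0 < (P.map (ω 1 0)).real (Set.Iic a₀))
    {β : ℝ} (hβ : 0 < β) (h : ℝ) {N : ℕ} {v : ℝ} {b l D : ℤ} {r : ℕ} (g : Gm N v b l D r)
    {q t : ℝ} (hq : 1 / 2 < q) (hq1 : q ≤ 1) (ht : 0 < t) :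
    2 * qf P ω β h (2 * N) v r q + qf P ω β h N v r q - 2 -
      (∫ a, GF (wt β (fld ω a)) N b l D ∂P) / t ≤
      (t - Real.log q + 2) * Real.sqrt ((2 * r + 1) *
        (1 / (P.map (ω 1 0)).real (Set.Ici b₀) + 1 / (P.map (ω 1 0)).real (Set.Iic a₀))) /
        (Real.sqrt N * (1 - Real.exp (-(β * (b₀ - a₀))))) := by
  have hlog : Real.log q ≤ 0 := Real.log_nonpos (by linarith) hq1
  have hlN : b + D + l ≤ (N : ℤ) := g.b2
  have hbN : -(N : ℤ) ≤ b + D := by have := g.b1; have := g.hlD; have := g.hl0; omega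
  have hc := conc he hab hp hm hβ h g.hN v r hbN hlN (lo := Real.log q - t) (hi := 0)
    (by linarith)
  have e0 : (0 : ℝ) - (Real.log q - t) + 2 = t - Real.log q + 2 := by ring
  rw [e0] at hc
  refine le_trans ?_ hc
  set Ev := {a | 0 < Fr (mulK (tubF 0 v r) (wt β (fld ω a))) (dr h) (2 * N) 0 ∧
      Real.log (MF (mulK (barF N v r) (wt β (fld ω a))) (dr h) N 0 (b + D) l) -
        Real.log (Fr (mulK (tubF 0 v r) (wt β (fld ω a))) (dr h) (2 * N) 0) ∈
          Set.Icc (Real.log q - t) 0} with hEv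
  set E1 := {a | CF (wt β (fld ω a)) h (2 * N) 0 v r q} with hE1
  set E2 := {a | CF (sh 0 (wt β (fld ω a))) h (2 * N) D v r q} with hE2
  set E3 := {a | CF (sh N (wt β (fld ω a))) h N (b + D) v r q} with hE3
  set E4 := {a | t < GF (wt β (fld ω a)) N b l D} with hE4
  have hsub : E1 ∩ E2 ∩ E3 ∩ E4ᶜ ⊆ Ev := by
    rintro a ⟨⟨⟨h1, h2⟩, h3⟩, h4⟩
    simp only [hE4, Set.mem_compl_iff, Set.mem_ofPred_eq, not_lt] at h4
    simp only [hE2, Set.mem_ofPred_eq, sh_zero] at h2
    obtain ⟨d1, d3⟩ := det_core (K := wt β (fld ω a)) (fun i x => wt_pos _ _ _ _) g hq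
      h1 h2 h3 h4
    exact ⟨d1, d3⟩
  have m1 : MeasurableSet E1 := measurableSet_CF (fun i x => measurable_wt' he β i x) _ _ _ _ _ _
  have m2 : MeasurableSet E2 := measurableSet_CF (fun i x => measurable_wt' he β _ _) _ _ _ _ _ _
  have m3 : MeasurableSet E3 := measurableSet_CF (fun i x => measurable_wt' he β _ _) _ _ _ _ _ _
  have q1 : P.real E1 = qf P ω β h (2 * N) v r q := rfl
  have q2 : P.real E2 = qf P ω β h (2 * N) v r q := qf_shift he β h (2 * N) v r q 0 D
  have q3 : P.real E3 = qf P ω β h N v r q := qf_shift he β h N v r q N (b + D)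
  have hG := integrable_GF he hexp β g
  have hM := mul_meas_ge_le_integral_of_nonneg (μ := P)
    (f := fun a => GF (wt β (fld ω a)) N b l D)
    (Filter.Eventually.of_forall (fun a => GF_nonneg (fun i x => wt_pos _ _ _ _) g)) hG.1 t
  have h4 : P.real E4 ≤ (∫ a, GF (wt β (fld ω a)) N b l D ∂P) / t := by
    rw [le_div_iff₀ ht]
    have : P.real E4 ≤ P.real {a | t ≤ GF (wt β (fld ω a)) N b l D} := by
      apply measureReal_mono _ (measure_ne_top _ _)
      intro a ha
      exact (show t < GF (wt β (fld ω a)) N b l D from ha).le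
    nlinarith
  have hunion : (Set.univ : Set Ω) ⊆ Ev ∪ (E1ᶜ ∪ (E2ᶜ ∪ (E3ᶜ ∪ E4))) := by
    intro a _
    by_cases h1 : a ∈ E1
    · by_cases h2 : a ∈ E2
      · by_cases h3 : a ∈ E3
        · by_cases h4 : a ∈ E4
          · exact Or.inr (Or.inr (Or.inr (Or.inr h4)))
          · exact Or.inl (hsub ⟨⟨⟨h1, h2⟩, h3⟩, h4⟩)
        · exact Or.inr (Or.inr (Or.inr (Or.inl h3)))
      · exact Or.inr (Or.inr (Or.inl h2))
    · exact Or.inr (Or.inl h1)
  have u0 : (1 : ℝ) ≤ P.real (Ev ∪ (E1ᶜ ∪ (E2ᶜ ∪ (E3ᶜ ∪ E4)))) := by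
    rw [← probReal_univ (μ := P)]
    exact measureReal_mono hunion
  have u1 := measureReal_union_le (μ := P) Ev (E1ᶜ ∪ (E2ᶜ ∪ (E3ᶜ ∪ E4)))
  have u2 := measureReal_union_le (μ := P) E1ᶜ (E2ᶜ ∪ (E3ᶜ ∪ E4))
  have u3 := measureReal_union_le (μ := P) E2ᶜ (E3ᶜ ∪ E4)
  have u4 := measureReal_union_le (μ := P) E3ᶜ E4
  rw [compl_bound m1, q1] at u2
  rw [compl_bound m2, q2] at u3
  rw [compl_bound m3, q3] at u4
  linarith

end Pool.Agent.K1H53.SF
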