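import Pool.Agent.K1H53.SD.Core

/-!
Free (point to line) polymers: gluing, likelihood ratio order, blocks of midpoints.
-/

namespace Pool.Agent.K1H53.SF

open Pool.Agent.K1H53.SD

/-- total weight of the paths of `n` steps from `x0`, with terminal weight `φ` -/
noncomputable def Fr (K : ℕ → ℤ → ℝ) (φ : ℤ → ℝ) (n : ℕ) (x0 : ℤ) : ℝ :=
  ∑ z ∈ Finset.Icc (x0 - n) (x0 + n), Z K x0 n z * φ z

lemma Fr_eq (K : ℕ → ℤ → ℝ) (φ : ℤ → ℝ) (n : ℕ) (x0 : ℤ) {S : Finset ℤ}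
    (hS : Finset.Icc (x0 - n) (x0 + n) ⊆ S) : Fr K φ n x0 = ∑ z ∈ S, Z K x0 n z * φ z := by
  unfold Fr
  apply Finset.sum_subset hS
  intro z _ hz
  rw [Z_supp, zero_mul]
  rw [Finset.mem_Icc] at hz
  rcases abs_cases (z - x0) with h | h <;> omega

lemma Fr_zero (K : ℕ → ℤ → ℝ) (φ : ℤ → ℝ) (x0 : ℤ) : Fr K φ 0 x0 = φ x0 := by
  unfold Fr
  simp [Z_zero]

lemma Fr_succ (K : ℕ → ℤ → ℝ) (φ : ℤ → ℝ) (n : ℕ) (x0 : ℤ) :
    Fr K φ (n + 1) x0 = K 1 (x0 - 1) * Fr (sh 1 K) φ n (x0 - 1) +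
      K 1 (x0 + 1) * Fr (sh 1 K) φ n (x0 + 1) := by
  have h1 := Fr_eq (sh 1 K) φ n (x0 - 1) (S := Finset.Icc (x0 - ((n + 1 : ℕ) : ℤ))
    (x0 + ((n + 1 : ℕ) : ℤ))) (by
      intro z hz
      rw [Finset.mem_Icc] at hz ⊢
      push_cast
      omega)
  have h2 := Fr_eq (sh 1 K) φ n (x0 + 1) (S := Finset.Icc (x0 - ((n + 1 : ℕ) : ℤ))
    (x0 + ((n + 1 : ℕ) : ℤ))) (by
      intro z hz
      rw [Finset.mem_Icc] at hz ⊢
      push_cast
      omega)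
  rw [h1, h2, Finset.mul_sum, Finset.mul_sum, ← Finset.sum_add_distrib]
  unfold Fr
  apply Finset.sum_congr rfl
  intro z _
  rw [Z_first]
  ring

lemma Fr_glue (K : ℕ → ℤ → ℝ) (φ : ℤ → ℝ) (N M : ℕ) (x0 : ℤ) :
    Fr K φ (N + M) x0 =
      ∑ m ∈ Finset.Icc (x0 - N) (x0 + N), Z K x0 N m * Fr (sh N K) φ M m := by
  have h : ∀ m ∈ Finset.Icc (x0 - N) (x0 + N), Z K x0 N m * Fr (sh N K) φ M m =
      ∑ z ∈ Finset.Icc (x0 - ((N + M : ℕ) : ℤ)) (x0 + ((N + M : ℕ) : ℤ)),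
        Z K x0 N m * (Z (sh N K) m M z * φ z) := by
    intro m hm
    rw [Fr_eq (sh N K) φ M m (S := Finset.Icc (x0 - ((N + M : ℕ) : ℤ))
      (x0 + ((N + M : ℕ) : ℤ))) (by
        intro z hz
        rw [Finset.mem_Icc] at hz hm ⊢
        push_cast
        omega), Finset.mul_sum]
  rw [Finset.sum_congr rfl h, Finset.sum_comm]
  unfold Fr
  apply Finset.sum_congr rfl
  intro z _
  rw [Z_glue, Finset.sum_mul]
  apply Finset.sum_congr rfl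
  intro m _
  ring

lemma Fr_nonneg {K : ℕ → ℤ → ℝ} (hK : ∀ i x, 0 ≤ K i x) {φ : ℤ → ℝ} (hφ : ∀ x, 0 ≤ φ x)
    (n : ℕ) (x0 : ℤ) : 0 ≤ Fr K φ n x0 :=
  Finset.sum_nonneg fun z _ => mul_nonneg (Z_nonneg hK _ _ _) (hφ z)

lemma Fr_mono {K L : ℕ → ℤ → ℝ} (hK : ∀ i x, 0 ≤ K i x) (h : ∀ i x, K i x ≤ L i x) {φ : ℤ → ℝ}
    (hφ : ∀ x, 0 ≤ φ x) (n : ℕ) (x0 : ℤ) : Fr K φ n x0 ≤ Fr L φ n x0 := by
  unfold Fr
  apply Finset.sum_le_sum
  intro z _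
  exact mul_le_mul_of_nonneg_right (Z_mono hK h _ _ _) (hφ z)

lemma Fr_pos {K : ℕ → ℤ → ℝ} (hK : ∀ i x, 0 < K i x) {φ : ℤ → ℝ} (hφ : ∀ x, 0 < φ x)
    (n : ℕ) (x0 : ℤ) : 0 < Fr K φ n x0 := by
  have h1 : 0 < Z K x0 n (x0 + n) * φ (x0 + n) := by
    apply mul_pos _ (hφ _)
    apply Z_pos hK
    · rw [add_sub_cancel_left, Nat.abs_cast]
    · rw [add_sub_cancel_left, sub_self]; norm_num
  refine lt_of_lt_of_le h1 ?_
  unfold Fr
  exact Finset.single_le_sum (f := fun z => Z K x0 n z * φ z)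
    (fun z _ => mul_nonneg (Z_nonneg (fun i x => (hK i x).le) _ _ _) (hφ z).le)
    (Finset.mem_Icc.2 ⟨by omega, le_rfl⟩)

lemma LR_Fr (n : ℕ) {φ : ℤ → ℝ} (hφ : ∀ x, 0 ≤ φ x) : ∀ {K L : ℕ → ℤ → ℝ}
    (_ : ∀ i x, 0 ≤ K i x) (_ : ∀ i x, 0 ≤ L i x) (_ : ∀ i, LR (K i) (L i)),
    LR (Fr K φ n) (Fr L φ n) := by
  induction n with
  | zero =>
    intro K L _ _ _ a k
    simp only [Fr_zero]
    rw [mul_comm]
  | succ n ih =>
    intro K L hK hL h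
    have h1 := ih (K := sh 1 K) (L := sh 1 L) (fun i x => hK _ _) (fun i x => hL _ _)
      (fun i => h _)
    have h2 := (LR.mul (hK 1) (hL 1) (Fr_nonneg (fun i x => hK _ _) hφ _)
      (Fr_nonneg (fun i x => hL _ _) hφ _) (h 1) h1).nb
    intro a k
    have h3 := h2 a k
    simp only [Fr_succ]
    exact h3

/-- comparison of starting points -/
lemma cmp_Fr {K L : ℕ → ℤ → ℝ} (hK : ∀ i x, 0 ≤ K i x) (hL : ∀ i x, 0 ≤ L i x)
    (h : ∀ i, LR (K i) (L i)) {φ : ℤ → ℝ} (hφ : ∀ x, 0 ≤ φ x) {e m : ℤ} {n : ℕ} {q : ℝ}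
    (hem : e ≤ m) (hp : (m - e) % 2 = 0)
    (hpos : 0 < Fr K φ n e) (hq : q * Fr K φ n e ≤ Fr L φ n e) :
    q * Fr K φ n m ≤ Fr L φ n m := by
  have h1 := LR_Fr n hφ hK hL h e ((m - e) / 2).toNat
  have e1 : e + 2 * (((m - e) / 2).toNat : ℤ) = m := by
    rw [Int.toNat_of_nonneg (by omega)]; omega
  rw [e1] at h1
  have h2 := mul_le_mul_of_nonneg_right hq (Fr_nonneg hK hφ n m)
  have h3 : (q * Fr K φ n m) * Fr K φ n e ≤ Fr L φ n m * Fr K φ n e := by linarith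
  exact le_of_mul_le_mul_right h3 hpos

/-- weight of the paths of `2N` steps from `x0` with midpoint in `[b, b + l]` -/
noncomputable def MF (K : ℕ → ℤ → ℝ) (φ : ℤ → ℝ) (N : ℕ) (x0 b l : ℤ) : ℝ :=
  ∑ m ∈ Finset.Icc b (b + l), Z K x0 N m * Fr (sh N K) φ N m

lemma MF_nonneg {K : ℕ → ℤ → ℝ} (hK : ∀ i x, 0 ≤ K i x) {φ : ℤ → ℝ} (hφ : ∀ x, 0 ≤ φ x)
    (N : ℕ) (x0 b l : ℤ) : 0 ≤ MF K φ N x0 b l :=
  Finset.sum_nonneg fun _ _ => mul_nonneg (Z_nonneg hK _ _ _) (Fr_nonneg (fun _ _ => hK _ _) hφ _ _)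

lemma MF_pos {K : ℕ → ℤ → ℝ} (hK : ∀ i x, 0 < K i x) {φ : ℤ → ℝ} (hφ : ∀ x, 0 < φ x)
    {N : ℕ} {x0 b l : ℤ} (hl : 0 ≤ l) (h : 0 < Z K x0 N b) : 0 < MF K φ N x0 b l := by
  refine lt_of_lt_of_le (mul_pos h (Fr_pos (K := sh N K) (fun _ _ => hK _ _) hφ N b)) ?_
  unfold MF
  exact Finset.single_le_sum (f := fun m => Z K x0 N m * Fr (sh N K) φ N m)
    (fun m _ => mul_nonneg (Z_nonneg (fun i x => (hK i x).le) _ _ _)
      (Fr_nonneg (fun _ _ => (hK _ _).le) (fun x => (hφ x).le) _ _))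
    (Finset.mem_Icc.2 ⟨le_rfl, by omega⟩)

/-- the upper block -/
lemma MF_up {K : ℕ → ℤ → ℝ} (hK : ∀ i x, 0 ≤ K i x) {φ : ℤ → ℝ} (hφ : ∀ x, 0 ≤ φ x) {N : ℕ}
    {b l : ℤ} {j : ℕ} (p : (b - N) % 2 = 0) (pl : l % 2 = 0) :
    MF K φ N (2 * j) b l * Z K 0 N (b + l) ≤ Z K (2 * j) N (b + l) * MF K φ N 0 b l := by
  unfold MF
  rw [Finset.sum_mul, Finset.mul_sum]
  apply Finset.sum_le_sum
  intro m hm
  rw [Finset.mem_Icc] at hm
  by_cases hp : (m - N) % 2 = 0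
  · have h := LR_end hK hK (fun i => LR.refl _) 0 j N m ((b + l - m) / 2).toNat
    have e : m + 2 * (((b + l - m) / 2).toNat : ℤ) = b + l := by
      rw [Int.toNat_of_nonneg (by omega)]
      omega
    rw [e, zero_add] at h
    have := mul_le_mul_of_nonneg_right h (Fr_nonneg (K := sh N K) (fun _ _ => hK _ _) hφ N m)
    linarith
  · rw [Z_parity K (2 * (j : ℤ)) N m (by omega), Z_parity K 0 N m (by omega)]
    simp

/-- the lower block -/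
lemma MF_down {K : ℕ → ℤ → ℝ} (hK : ∀ i x, 0 ≤ K i x) {φ : ℤ → ℝ} (hφ : ∀ x, 0 ≤ φ x) {N : ℕ}
    {b l : ℤ} {j : ℕ} (p : (b - N) % 2 = 0) :
    Z K (2 * j) N b * MF K φ N 0 b l ≤ MF K φ N (2 * j) b l * Z K 0 N b := by
  unfold MF
  rw [Finset.sum_mul, Finset.mul_sum]
  apply Finset.sum_le_sum
  intro m hm
  rw [Finset.mem_Icc] at hm
  by_cases hp : (m - N) % 2 = 0
  · have h := LR_end hK hK (fun i => LR.refl _) 0 j N b ((m - b) / 2).toNat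
    have e : b + 2 * (((m - b) / 2).toNat : ℤ) = m := by
      rw [Int.toNat_of_nonneg (by omega)]
      omega
    rw [e, zero_add] at h
    have := mul_le_mul_of_nonneg_right h (Fr_nonneg (K := sh N K) (fun _ _ => hK _ _) hφ N m)
    linarith
  · rw [Z_parity K (2 * (j : ℤ)) N m (by omega), Z_parity K 0 N m (by omega)]
    simp

/-- the discrepancy -/
noncomputable def GF (K : ℕ → ℤ → ℝ) (N : ℕ) (b l D : ℤ) : ℝ :=
  (Real.log (Z K D N (b + D + l)) - Real.log (Z K 0 N (b + D + l))) -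
    (Real.log (Z K D N b) - Real.log (Z K 0 N b))

/-- geometric assumptions -/
structure Gm (N : ℕ) (v : ℝ) (b l D : ℤ) (r : ℕ) : Prop where
  hN : 1 ≤ N
  hb : (b - N) % 2 = 0
  hl : l % 2 = 0
  hl0 : 0 ≤ l
  hD : D % 2 = 0
  hlD : l < D
  lo : (b : ℝ) ≤ N * v - r
  hi : N * v + r ≤ (b : ℝ) + l
  up : N * v + 2 * r < (b : ℝ) + D
  b1 : -(N : ℤ) ≤ b - D
  b2 : b + D + l ≤ N

lemma Gm.Zpos {K : ℕ → ℤ → ℝ} (hK : ∀ i x, 0 < K i x) {N : ℕ} {v : ℝ} {b l D : ℤ} {r : ℕ}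
    (g : Gm N v b l D r) : 0 < Z K D N (b + D + l) ∧ 0 < Z K 0 N (b + D + l) ∧
      0 < Z K D N b ∧ 0 < Z K 0 N b ∧ 0 < Z K 0 N (b + D) ∧ 0 < Z K D N (b + D) := by
  have h1 := g.hb; have h2 := g.hl; have h3 := g.hl0; have h4 := g.hD; have h5 := g.hlD
  have h6 := g.b1; have h7 := g.b2
  refine ⟨?_, ?_, ?_, ?_, ?_, ?_⟩ <;> apply Z_pos hK <;> first | (rw [abs_le]; omega) | omega

lemma GF_nonneg {K : ℕ → ℤ → ℝ} (hK : ∀ i x, 0 < K i x) {N : ℕ} {v : ℝ} {b l D : ℤ} {r : ℕ}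
    (g : Gm N v b l D r) : 0 ≤ GF K N b l D := by
  obtain ⟨w1, w2, w3, w4, w5, w6⟩ := g.Zpos hK
  have hK' : ∀ i x, 0 ≤ K i x := fun i x => (hK i x).le
  have h4 := g.hD; have h5 := g.hlD; have h3 := g.hl0; have h2 := g.hl
  have h := LR_end hK' hK' (fun i => LR.refl _) 0 (D / 2).toNat N b ((D + l) / 2).toNat
  have e : b + 2 * (((D + l) / 2).toNat : ℤ) = b + D + l := by
    rw [Int.toNat_of_nonneg (by omega)]; omega
  have e2 : (0 : ℤ) + 2 * ((D / 2).toNat : ℤ) = D := by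
    rw [Int.toNat_of_nonneg (by omega)]; omega
  rw [e, e2] at h
  have l1 := Real.log_le_log (by positivity) h
  rw [Real.log_mul w3.ne' w2.ne', Real.log_mul w1.ne' w4.ne'] at l1
  unfold GF
  linarith

/-- if, started from `D`, the upper block has at least the mass of the lower one, then the same
holds up to the discrepancy when started from `0` -/
lemma MF_comp {K : ℕ → ℤ → ℝ} (hK : ∀ i x, 0 < K i x) {φ : ℤ → ℝ} (hφ : ∀ x, 0 < φ x) {N : ℕ}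
    {v : ℝ} {b l D : ℤ} {r : ℕ} (g : Gm N v b l D r)
    (hD : MF K φ N D b l ≤ MF K φ N D (b + D) l) :
    Real.log (MF K φ N 0 b l) - GF K N b l D ≤ Real.log (MF K φ N 0 (b + D) l) := by
  obtain ⟨w1, w2, w3, w4, w5, w6⟩ := g.Zpos hK
  have hK' : ∀ i x, 0 ≤ K i x := fun i x => (hK i x).le
  have hφ' : ∀ x, 0 ≤ φ x := fun x => (hφ x).le
  have h4 := g.hD; have h5 := g.hlD; have h3 := g.hl0; have h2 := g.hl; have h1 := g.hb
  have e2 : 2 * ((D / 2).toNat : ℤ) = D := by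
    rw [Int.toNat_of_nonneg (by omega)]; omega
  have u := MF_up hK' hφ' (N := N) (b := b + D) (l := l) (j := (D / 2).toNat) (by omega) h2
  have d := MF_down hK' hφ' (N := N) (b := b) (l := l) (j := (D / 2).toNat) h1
  rw [e2] at u d
  have m1 : 0 < MF K φ N 0 b l := MF_pos hK hφ h3 w4
  have m2 : 0 < MF K φ N 0 (b + D) l := MF_pos hK hφ h3 w5
  have m3 : 0 < MF K φ N D b l := MF_pos hK hφ h3 w3
  have m4 : 0 < MF K φ N D (b + D) l := MF_pos hK hφ h3 w6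
  have l1 := Real.log_le_log (by positivity) u
  have l2 := Real.log_le_log (by positivity) d
  have l3 := Real.log_le_log m3 hD
  rw [Real.log_mul m4.ne' w2.ne', Real.log_mul w1.ne' m2.ne'] at l1
  rw [Real.log_mul w3.ne' m1.ne', Real.log_mul m3.ne' w4.ne'] at l2
  unfold GF
  linarith

end Pool.Agent.K1H53.SF
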