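import Pool.Agent.K1H53.SF.FBar
import Pool.Agent.K1H53.SD.Scale

/-!
The free polymer in the random environment: measurability, invariance, mean discrepancy.
-/

open MeasureTheory ProbabilityTheory

set_option linter.unusedSectionVars false

namespace Pool.Agent.K1H53.SF

open Pool.Agent.K1H53.SD

variable {Ω : Type*} [MeasurableSpace Ω] {P : Measure Ω} [IsProbabilityMeasure P]
variable {ω : ℕ → ℤ → Ω → ℝ}

lemma measurable_Fr {α : Type*} [MeasurableSpace α] {K : α → ℕ → ℤ → ℝ}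
    (hK : ∀ i x, Measurable (fun a => K a i x)) (φ : ℤ → ℝ) (n : ℕ) (x0 : ℤ) :
    Measurable (fun a => Fr (K a) φ n x0) := by
  unfold Fr
  exact Finset.measurable_sum _ (fun z _ => (measurable_Z hK x0 n z).mul_const _)

lemma measurable_MF {α : Type*} [MeasurableSpace α] {K : α → ℕ → ℤ → ℝ}
    (hK : ∀ i x, Measurable (fun a => K a i x)) (φ : ℤ → ℝ) (N : ℕ) (x0 b l : ℤ) :
    Measurable (fun a => MF (K a) φ N x0 b l) := by
  unfold MF
  exact Finset.measurable_sum _ (fun m _ => (measurable_Z hK x0 N m).mul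
    (measurable_Fr (fun i x => hK _ _) φ N m))

/-- translation in space -/
lemma Fr_trans (K : ℕ → ℤ → ℝ) (h : ℝ) (n : ℕ) (x0 : ℤ) :
    Fr K (dr h) n x0 = Real.exp (h * x0) * Fr (fun i u => K i (u + x0)) (dr h) n 0 := by
  unfold Fr
  rw [Finset.mul_sum]
  refine Finset.sum_nbij' (fun z => z - x0) (fun z => z + x0) ?_ ?_ ?_ ?_ ?_
  · intro m hm; rw [Finset.mem_Icc] at hm ⊢; omega
  · intro m hm; rw [Finset.mem_Icc] at hm ⊢; omega
  · intro m _; ring
  · intro m _; ring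
  · intro z _
    rw [Z_trans K x0 x0, sub_self]
    unfold dr
    have : Real.exp (h * z) = Real.exp (h * x0) * Real.exp (h * ((z - x0 : ℤ) : ℝ)) := by
      rw [← Real.exp_add]
      congr 1
      push_cast
      ring
    rw [this]
    ring

lemma tub_trans (K : ℕ → ℤ → ℝ) (x0 : ℤ) (v : ℝ) (r : ℕ) :
    (fun i u => mulK (tubF x0 v r) K i (u + x0)) = mulK (tubF 0 v r) (fun i u => K i (u + x0)) := by
  funext i u
  unfold mulK
  congr 1
  unfold tubF
  have : (((u + x0 : ℤ) : ℝ)) - x0 - i * v = (u : ℝ) - ((0 : ℤ) : ℝ) - i * v := by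
    push_cast; ring
  rw [this]

lemma CF_trans (K : ℕ → ℤ → ℝ) (h : ℝ) (n : ℕ) (x0 : ℤ) (v : ℝ) (r : ℕ) (q : ℝ) :
    CF K h n x0 v r q ↔ CF (fun i u => K i (u + x0)) h n 0 v r q := by
  unfold CF
  rw [Fr_trans K, Fr_trans (mulK (tubF x0 v r) K), tub_trans]
  have hp := Real.exp_pos (h * x0)
  constructor
  · intro h1
    have : (q * Fr (fun i u => K i (u + x0)) (dr h) n 0) * Real.exp (h * x0) ≤
        Fr (mulK (tubF 0 v r) fun i u => K i (u + x0)) (dr h) n 0 * Real.exp (h * x0) := by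
      linarith
    exact le_of_mul_le_mul_right this hp
  · intro h1
    have := mul_le_mul_of_nonneg_right h1 hp.le
    linarith

lemma measurableSet_CF {α : Type*} [MeasurableSpace α] {K : α → ℕ → ℤ → ℝ}
    (hK : ∀ i x, Measurable (fun a => K a i x)) (h : ℝ) (n : ℕ) (x0 : ℤ) (v : ℝ) (r : ℕ) (q : ℝ) :
    MeasurableSet {a | CF (K a) h n x0 v r q} := by
  apply measurableSet_le
  · exact (measurable_Fr hK _ _ _).const_mul q
  · exact measurable_Fr (fun i x => (hK i x).const_mul _) _ _ _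

/-- probability of confinement of the free polymer with drift -/
noncomputable def qf (P : Measure Ω) (ω : ℕ → ℤ → Ω → ℝ) (β h : ℝ) (n : ℕ) (v : ℝ) (r : ℕ)
    (q : ℝ) : ℝ := P.real {a | CF (wt β (fld ω a)) h n 0 v r q}

lemma qf_shift (he : IsEnv P ω) (β h : ℝ) (n : ℕ) (v : ℝ) (r : ℕ) (q : ℝ) (s : ℕ) (x0 : ℤ) :
    P.real {a | CF (sh s (wt β (fld ω a))) h n x0 v r q} = qf P ω β h n v r q := by
  have hτ : Function.Injective (fun p : ℕ × ℤ => ((s + p.1, p.2 + x0) : ℕ × ℤ)) := by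
    rintro ⟨i, x⟩ ⟨j, y⟩ hh
    simp only [Prod.mk.injEq] at hh
    ext <;> simp <;> omega
  have hS : MeasurableSet {η : ℕ → ℤ → ℝ | CF (wt β η) h n 0 v r q} :=
    measurableSet_CF (fun i x => measurable_wt β i x) h n 0 v r q
  have h1 := prob_inv he (τ := fun i x => (s + i, x + x0)) hτ hS
  unfold qf
  simp only [Set.mem_ofPred_eq] at h1
  rw [← h1]
  congr 1
  ext a
  simp only [Set.mem_ofPred_eq]
  rw [CF_trans]
  rfl

/-- monotonicity in the radius -/
lemma qf_mono (β h : ℝ) (n : ℕ) (v : ℝ) {r r' : ℕ} (hr : r ≤ r') (q : ℝ) :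
    qf P ω β h n v r q ≤ qf P ω β h n v r' q := by
  unfold qf
  refine measureReal_mono ?_ (measure_ne_top _ _)
  intro a ha
  simp only [Set.mem_ofPred_eq, CF] at ha ⊢
  refine ha.trans ?_
  apply Fr_mono (mulK_nonneg (tubF_nonneg _ _ _) (fun i x => (wt_pos _ _ _ _).le)) _
    (fun x => (dr_pos h x).le)
  intro i x
  unfold mulK
  apply mul_le_mul_of_nonneg_right _ (wt_pos _ _ _ _).le
  unfold tubF
  split_ifs with h1 h2
  · exact le_rfl
  · exfalso
    apply h2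
    refine h1.trans ?_
    exact_mod_cast hr
  · norm_num
  · exact le_rfl

variable {N : ℕ} {v : ℝ} {b l D : ℤ} {r : ℕ}

lemma integrable_GF (h : IsEnv P ω) (hexp : HasExp P ω) (β : ℝ) (g : Gm N v b l D r) :
    Integrable (fun a => GF (wt β (fld ω a)) N b l D) P ∧
    ∫ a, GF (wt β (fld ω a)) N b l D ∂P =
      (am P ω β N b - am P ω β N (b - D)) - (am P ω β N (b + D + l) - am P ω β N (b + l)) := by
  have h1 := g.hb; have h2 := g.hl; have h3 := g.hl0; have h4 := g.hD; have h5 := g.hlD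
  have h6 := g.b1; have h7 := g.b2
  have ii : ∀ (x0 m : ℤ), |m - x0| ≤ (N : ℤ) → (m - x0 - N) % 2 = 0 →
      Integrable (fun a => Real.log (Z (wt β (fld ω a)) x0 N m)) P ∧
      ∫ a, Real.log (Z (wt β (fld ω a)) x0 N m) ∂P = am P ω β N (m - x0) := by
    intro x0 m k1 k2
    have i1 := integrable_logZ h hexp β 0 k1 k2
    have e1 := mean_shift h β 0 x0 N m
    simp_rw [sh_zero] at i1 e1
    exact ⟨i1, e1⟩
  obtain ⟨i1, e1⟩ := ii D (b + D + l) (by rw [abs_le]; omega) (by omega)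
  obtain ⟨i2, e2⟩ := ii 0 (b + D + l) (by rw [abs_le]; omega) (by omega)
  obtain ⟨i3, e3⟩ := ii D b (by rw [abs_le]; omega) (by omega)
  obtain ⟨i4, e4⟩ := ii 0 b (by rw [abs_le]; omega) (by omega)
  unfold GF
  refine ⟨(i1.sub i2).sub (i3.sub i4), ?_⟩
  have s1 := integral_sub (i1.sub i2) (i3.sub i4)
  have s2 := integral_sub i1 i2
  have s3 := integral_sub i3 i4
  simp only [Pi.sub_apply] at s1 s2 s3
  rw [s1, s2, s3, e1, e2, e3, e4]
  have c1 : b + D + l - D = b + l := by ring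
  rw [c1, sub_zero, sub_zero]
  ring

lemma integral_GF_le (h : IsEnv P ω) (hexp : HasExp P ω) (β : ℝ) (g : Gm N v b l D r)
    {u w : ℤ} (hu1 : 1 ≤ u) (hu : 2 * u ≤ b - D + N + 2) (hw : b + D + l + N ≤ 2 * w)
    (hwN : w ≤ N) :
    ∫ a, GF (wt β (fld ω a)) N b l D ∂P ≤ D / 2 * (da P ω β N u - da P ω β N w) := by
  rw [(integrable_GF h hexp β g).2]
  have h1 := g.hb; have h2 := g.hl; have h3 := g.hl0; have h4 := g.hD; have h5 := g.hlD
  have h6 := g.b1; have h7 := g.b2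
  obtain ⟨k, hk⟩ : ∃ k : ℕ, D = 2 * k := ⟨(D / 2).toNat, by
    rw [Int.toNat_of_nonneg (by omega)]; omega⟩
  obtain ⟨jb, hjb⟩ : ∃ j : ℤ, b = 2 * j - N := ⟨(b + N) / 2, by omega⟩
  obtain ⟨jt, hjt⟩ : ∃ j : ℤ, b + D + l = 2 * j - N := ⟨(b + D + l + N) / 2, by omega⟩
  have s1 := sum_da P ω β N (jb - k) k
  have s2 := sum_da P ω β N (jt - k) k
  have c1 : 2 * (jb - k + k) - (N : ℤ) = b := by omega
  have c2 : 2 * (jb - k) - (N : ℤ) = b - D := by omega
  have c3 : 2 * (jt - k + k) - (N : ℤ) = b + D + l := by omega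
  have c4 : 2 * (jt - k) - (N : ℤ) = b + l := by omega
  rw [c1, c2] at s1
  rw [c3, c4] at s2
  rw [s1, s2]
  have u1 : ∑ i ∈ Finset.range k, da P ω β N (jb - k + i + 1) ≤ k * da P ω β N u := by
    rw [show (k : ℝ) * da P ω β N u = ∑ i ∈ Finset.range k, da P ω β N u by
      rw [Finset.sum_const, Finset.card_range, nsmul_eq_mul]]
    apply Finset.sum_le_sum
    intro i hi
    rw [Finset.mem_range] at hi
    exact da_anti h hexp β hu1 (by omega) (by omega)
  have u2 : k * da P ω β N w ≤ ∑ i ∈ Finset.range k, da P ω β N (jt - k + i + 1) := by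
    rw [show (k : ℝ) * da P ω β N w = ∑ i ∈ Finset.range k, da P ω β N w by
      rw [Finset.sum_const, Finset.card_range, nsmul_eq_mul]]
    apply Finset.sum_le_sum
    intro i hi
    rw [Finset.mem_range] at hi
    exact da_anti h hexp β (by omega) (by omega) hwN
  have : (D : ℝ) / 2 = k := by rw [hk]; push_cast; ring
  rw [this]
  linarith

/-- existence of the geometry -/
lemma gm_of {N r : ℕ} (hN : 1 ≤ N) (hr : 3 ≤ r) {v : ℝ} (hb1 : (r : ℝ) * 16 ≤ N * (1 + v))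
    (hb2 : (r : ℝ) * 16 ≤ N * (1 - v)) :
    ∃ b l D : ℤ, Gm N v b l D r ∧ D ≤ 6 * r ∧ 1 ≤ ⌊(N : ℝ) * (1 + v) / 2⌋ - 7 * r ∧
      2 * (⌊(N : ℝ) * (1 + v) / 2⌋ - 7 * r) ≤ b - D + N + 2 ∧
      b + D + l + N ≤ 2 * (⌊(N : ℝ) * (1 + v) / 2⌋ + 7 * r) ∧
      ⌊(N : ℝ) * (1 + v) / 2⌋ + 7 * r ≤ N := by
  have hNR : (0 : ℝ) < N := by exact_mod_cast hN
  set y := ⌊(N : ℝ) * v⌋ with hy
  set k := ⌊(N : ℝ) * (1 + v) / 2⌋ with hk
  have y1 : (y : ℝ) ≤ N * v := Int.floor_le _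
  have y2 : (N : ℝ) * v < y + 1 := Int.lt_floor_add_one _
  have k1 : (k : ℝ) ≤ N * (1 + v) / 2 := Int.floor_le _
  have k2 : (N : ℝ) * (1 + v) / 2 < k + 1 := Int.lt_floor_add_one _
  have i5 : 2 * k ≤ N + y := by
    have : ((2 * k : ℤ) : ℝ) < ((N + y + 1 : ℤ) : ℝ) := by push_cast; linarith
    have := Int.cast_lt.1 this
    omega
  have i6 : N + y - 1 ≤ 2 * k := by
    have : ((N + y - 2 : ℤ) : ℝ) < ((2 * k : ℤ) : ℝ) := by push_cast; linarith
    have := Int.cast_lt.1 this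
    omega
  have i7 : 16 * (r : ℤ) - N - 1 < y := by
    have : ((16 * (r : ℤ) - N - 1 : ℤ) : ℝ) < y := by push_cast; linarith
    exact Int.cast_lt.1 this
  have i8 : y ≤ N - 16 * (r : ℤ) := by
    have : (y : ℝ) ≤ ((N - 16 * (r : ℤ) : ℤ) : ℝ) := by push_cast; linarith
    exact Int.cast_le.1 this
  have hr3 : (3 : ℤ) ≤ r := by exact_mod_cast hr
  obtain ⟨e, he0, he1, hepar⟩ : ∃ e : ℤ, 0 ≤ e ∧ e ≤ 1 ∧ (y - r - e - N) % 2 = 0 :=
    ⟨(y - r - N) % 2, by omega, by omega, by omega⟩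
  obtain ⟨D, hD1, hD2, hD3⟩ : ∃ D : ℤ, 3 * (r : ℤ) + 2 + e ≤ D ∧ D ≤ 3 * r + 3 + e ∧ D % 2 = 0 := by
    rcases Int.emod_two_eq_zero_or_one (3 * (r : ℤ) + 2 + e) with h | h
    · exact ⟨3 * r + 2 + e, by omega, by omega, h⟩
    · exact ⟨3 * r + 3 + e, by omega, by omega, by omega⟩
  refine ⟨y - r - e, 2 * r + 2 * e + 2, D, ?_, by omega, by omega, by omega, by omega, by omega⟩
  have heR0 : (0 : ℝ) ≤ e := by exact_mod_cast he0
  have hD1R : 3 * (r : ℝ) + 2 + e ≤ D := by exact_mod_cast hD1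
  refine { hN := hN, hb := hepar, hl := by omega, hl0 := by omega, hD := hD3, hlD := ?_,
           lo := ?_, hi := ?_, up := ?_, b1 := by omega, b2 := by omega }
  · omega
  · push_cast; linarith
  · push_cast; linarith
  · push_cast; linarith

end Pool.Agent.K1H53.SF
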