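import Pool.Agent.K1H53.SF.FEnv

/-!
The partition function of the tube of the free polymer as a function of the environment in the
second half.
-/

open MeasureTheory ProbabilityTheory TH967.DP
open Classical

set_option linter.unusedSectionVars false

namespace Pool.Agent.K1H53.SF

open Pool.Agent.K1H53.SD

/-- the tube -/
def inF (v : ℝ) (r : ℕ) (i : ℕ) (x : ℤ) : Prop := |(x : ℝ) - i * v| ≤ r

/-- the sites of the tube in the window -/
noncomputable def S1 (N : ℕ) (v : ℝ) (r : ℕ) : Finset (ℕ × ℤ) :=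
  (Bx N).filter (fun s => s.1 ∈ Finset.Icc (N + 1) (2 * N) ∧ inF v r s.1 s.2)

/-- the other sites -/
noncomputable def S2 (N : ℕ) (v : ℝ) (r : ℕ) : Finset (ℕ × ℤ) :=
  (Bx N).filter (fun s => ¬ (s.1 ∈ Finset.Icc (N + 1) (2 * N) ∧ inF v r s.1 s.2))

lemma disj (N : ℕ) (v : ℝ) (r : ℕ) : Disjoint (S1 N v r) (S2 N v r) :=
  Finset.disjoint_filter_filter_not _ _ _

lemma card_S1 (N : ℕ) (v : ℝ) (r : ℕ) : (S1 N v r).card ≤ (2 * r + 1) * N := by
  have hc : (Finset.Icc (N + 1) (2 * N)).card = N := by rw [Nat.card_Icc]; omega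
  have key : (S1 N v r).card ≤ (2 * r + 1) * (Finset.Icc (N + 1) (2 * N)).card := by
    apply Finset.card_le_mul_card_image_of_maps_to (f := Prod.fst)
    · intro s hs
      unfold S1 at hs
      rw [Finset.mem_filter] at hs
      exact hs.2.1
    · intro i _
      have hsub : ∀ s ∈ (S1 N v r).filter (fun s => s.1 = i),
          s.2 ∈ Finset.Icc (⌈(i : ℝ) * v⌉ - r) (⌊(i : ℝ) * v⌋ + r) := by
        intro s hs
        unfold S1 at hs
        rw [Finset.mem_filter, Finset.mem_filter] at hs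
        obtain ⟨⟨_, _, hT⟩, hi⟩ := hs
        unfold inF at hT
        rw [hi, abs_le] at hT
        rw [Finset.mem_Icc]
        constructor
        · have : (i : ℝ) * v ≤ ((s.2 + r : ℤ) : ℝ) := by push_cast; linarith [hT.1]
          have := Int.ceil_le.2 this
          omega
        · have : ((s.2 - r : ℤ) : ℝ) ≤ (i : ℝ) * v := by push_cast; linarith [hT.2]
          have := Int.le_floor.2 this
          omega
      calc ((S1 N v r).filter (fun s => s.1 = i)).card ≤
          (Finset.Icc (⌈(i : ℝ) * v⌉ - r) (⌊(i : ℝ) * v⌋ + r)).card := by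
            apply Finset.card_le_card_of_injOn Prod.snd hsub
            intro s hs t ht hst
            rw [Finset.mem_coe, Finset.mem_filter] at hs ht
            exact Prod.ext (hs.2.trans ht.2.symm) hst
        _ ≤ 2 * r + 1 := by
            rw [Int.card_Icc]
            have := Int.floor_le_ceil ((i : ℝ) * v)
            omega
  rwa [hc] at key

/-- gluing of the two parts of the environment -/
noncomputable def gl (N : ℕ) (v : ℝ) (r : ℕ) (u : S1 N v r → ℝ) (w : S2 N v r → ℝ) :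
    ℕ → ℤ → ℝ := fun i x =>
  if h : (i, x) ∈ S1 N v r then u ⟨(i, x), h⟩ else
    if h' : (i, x) ∈ S2 N v r then w ⟨(i, x), h'⟩ else 0

lemma gl_env (N : ℕ) (v : ℝ) (r : ℕ) (η : ℕ → ℤ → ℝ) {i : ℕ} {x : ℤ} (h : (i, x) ∈ Bx N) :
    gl N v r (fun s => η s.1.1 s.1.2) (fun s => η s.1.1 s.1.2) i x = η i x := by
  unfold gl
  by_cases h1 : (i, x) ∈ S1 N v r
  · rw [dif_pos h1]
  · have h2 : (i, x) ∈ S2 N v r := by
      unfold S1 at h1
      unfold S2
      rw [Finset.mem_filter] at h1 ⊢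
      exact ⟨h, fun h3 => h1 ⟨h, h3⟩⟩
    rw [dif_neg h1, dif_pos h2]

lemma measurable_gl (N : ℕ) (v : ℝ) (r : ℕ) (i : ℕ) (x : ℤ) :
    Measurable (fun p : (S1 N v r → ℝ) × (S2 N v r → ℝ) => gl N v r p.1 p.2 i x) := by
  unfold gl
  by_cases h1 : (i, x) ∈ S1 N v r
  · simp only [dif_pos h1]
    exact (measurable_pi_apply _).comp measurable_fst
  · by_cases h2 : (i, x) ∈ S2 N v r
    · simp only [dif_neg h1, dif_pos h2]
      exact (measurable_pi_apply _).comp measurable_snd
    · simp only [dif_neg h1, dif_neg h2]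
      exact measurable_const

lemma bar_S1 {N : ℕ} {v : ℝ} {r : ℕ} {i : ℕ} {x : ℤ} (h : (i, x) ∈ S1 N v r) :
    barF N v r i x = 0 := by
  unfold S1 at h
  rw [Finset.mem_filter, Finset.mem_Icc] at h
  obtain ⟨_, h1, h2⟩ := h
  unfold barF
  rw [if_pos (by simp only at h1; omega), if_neg]
  unfold inF at h2
  simp only at h2
  rw [abs_le] at h2
  have := h2.2
  intro hcon
  linarith

lemma mulK_bar_gl (β : ℝ) (N : ℕ) (v : ℝ) (r : ℕ) (u u' : S1 N v r → ℝ) (w : S2 N v r → ℝ) :
    mulK (barF N v r) (wt β (gl N v r u w)) = mulK (barF N v r) (wt β (gl N v r u' w)) := by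
  funext i x
  unfold mulK
  by_cases h : (i, x) ∈ S1 N v r
  · rw [bar_S1 h, zero_mul, zero_mul]
  · congr 1
    unfold wt gl
    rw [dif_neg h, dif_neg h]

/-- the tube paths -/
def Wt (N : ℕ) (v : ℝ) (r : ℕ) : Type :=
  {w : Fin (2 * N) → Bool // ∀ i, 1 ≤ i → i ≤ 2 * N → inF v r i (pos w i)}

noncomputable instance (N : ℕ) (v : ℝ) (r : ℕ) : Fintype (Wt N v r) := by
  unfold Wt; infer_instance

/-- the window sites visited by a path -/
noncomputable def vis {N : ℕ} {v : ℝ} {r : ℕ} (w : Wt N v r) : Finset (S1 N v r) :=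
  Finset.univ.filter (fun s => s.1.2 = pos w.1 s.1.1)

lemma sum_vis {N : ℕ} {v : ℝ} {r : ℕ} (w : Wt N v r) (f : ℕ → ℤ → ℝ) :
    ∑ s ∈ vis w, f s.1.1 s.1.2 = ∑ i ∈ Finset.Icc (N + 1) (2 * N), f i (pos w.1 i) := by
  refine Finset.sum_bij (fun s _ => s.1.1) ?_ ?_ ?_ ?_
  · intro s _
    have := s.2
    unfold S1 at this
    rw [Finset.mem_filter] at this
    exact this.2.1
  · intro s hs t ht hst
    unfold vis at hs ht
    rw [Finset.mem_filter] at hs ht
    apply Subtype.ext
    apply Prod.ext hst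
    rw [hs.2, ht.2, hst]
  · intro i hi
    have hi' := hi
    rw [Finset.mem_Icc] at hi'
    have hmem : (i, pos w.1 i) ∈ S1 N v r := by
      unfold S1 Bx
      rw [Finset.mem_filter, Finset.mem_product, Finset.mem_Icc, Finset.mem_Icc]
      have h1 := abs_pos_le w.1 i
      rw [abs_le] at h1
      refine ⟨⟨⟨?_, ?_⟩, ?_, ?_⟩, hi, w.2 i (by omega) hi'.2⟩ <;> simp only <;> omega
    refine ⟨⟨(i, pos w.1 i), hmem⟩, ?_, rfl⟩
    unfold vis
    rw [Finset.mem_filter]
    exact ⟨Finset.mem_univ _, rfl⟩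
  · intro s hs
    unfold vis at hs
    rw [Finset.mem_filter] at hs
    rw [← hs.2]

lemma card_vis {N : ℕ} {v : ℝ} {r : ℕ} (w : Wt N v r) : (vis w).card = N := by
  have := sum_vis w (fun _ _ => 1)
  simp only [Finset.sum_const, nsmul_eq_mul, mul_one] at this
  have hc : (Finset.Icc (N + 1) (2 * N)).card = N := by rw [Nat.card_Icc]; omega
  rw [hc] at this
  exact_mod_cast this

/-- path sum of the free partition function with an indicator -/
lemma Fr_indicator (S : ℕ → ℤ → Prop) (K : ℕ → ℤ → ℝ) (φ : ℤ → ℝ) (n : ℕ) :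
    Fr (mulK (fun i x => if S i x then 1 else 0) K) φ n 0 =
      ∑ w : Fin n → Bool, if (∀ i, 1 ≤ i → i ≤ n → S i (pos w i))
        then pw K 0 w * φ (pos w n) else 0 := by
  unfold Fr
  simp only [Z_indicator S, zero_add, Finset.sum_mul]
  rw [Finset.sum_comm]
  apply Finset.sum_congr rfl
  intro w _
  have hmem : pos w n ∈ Finset.Icc (0 - (n : ℤ)) (n : ℤ) := by
    have h1 := abs_pos_le w n
    rw [abs_le] at h1
    rw [Finset.mem_Icc]
    omega
  by_cases h : ∀ i, 1 ≤ i → i ≤ n → S i (pos w i)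
  · rw [if_pos h]
    calc _ = ∑ z ∈ Finset.Icc (0 - (n : ℤ)) (n : ℤ),
          (if pos w n = z then pw K 0 w * φ z else 0) := by
          apply Finset.sum_congr rfl
          intro z _
          by_cases hz : pos w n = z
          · rw [if_pos ⟨hz, h⟩, if_pos hz]
          · rw [if_neg (fun h => hz h.1), if_neg hz, zero_mul]
      _ = _ := by rw [Finset.sum_ite_eq, if_pos hmem]
  · rw [if_neg h]
    apply Finset.sum_eq_zero
    intro z _
    rw [if_neg (fun h' => h h'.2), zero_mul]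

/-- the weights of the paths outside the window -/
noncomputable def cw (β h : ℝ) {N : ℕ} {v : ℝ} {r : ℕ} (u : S2 N v r → ℝ) (w : Wt N v r) : ℝ :=
  Real.exp (h * pos w.1 (2 * N)) *
    Real.exp (β * ∑ i ∈ Finset.Icc 1 (2 * N) \ Finset.Icc (N + 1) (2 * N),
      gl N v r (fun _ => 0) u i (pos w.1 i))

lemma cw_pos (β h : ℝ) {N : ℕ} {v : ℝ} {r : ℕ} (u : S2 N v r → ℝ) (w : Wt N v r) :
    0 < cw β h u w := mul_pos (Real.exp_pos _) (Real.exp_pos _)

lemma Fr_gl (β h : ℝ) (N : ℕ) (v : ℝ) (r : ℕ) (u : S1 N v r → ℝ) (u' : S2 N v r → ℝ) :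
    Fr (mulK (tubF 0 v r) (wt β (gl N v r u u'))) (dr h) (2 * N) 0 =
      ZZw β (cw β h u') (vis (N := N) (v := v) (r := r)) u := by
  have e : tubF 0 v r = fun i x => if inF v r i x then 1 else 0 := by
    funext i x
    unfold tubF inF
    simp
  have e3 : ∀ F : (Fin (2 * N) → Bool) → ℝ, (∑ w : Fin (2 * N) → Bool,
      if (∀ i, 1 ≤ i → i ≤ 2 * N → inF v r i (pos w i)) then F w else 0) =
        ∑ w : Wt N v r, F w.1 := by
    intro F
    have e4 : (∑ w : Fin (2 * N) → Bool,
        if (∀ i, 1 ≤ i → i ≤ 2 * N → inF v r i (pos w i)) then F w else 0) =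
        ∑ w ∈ Finset.univ.filter (fun w : Fin (2 * N) → Bool =>
          ∀ i, 1 ≤ i → i ≤ 2 * N → inF v r i (pos w i)), F w := by
      rw [Finset.sum_filter]
    rw [e4]
    exact Finset.sum_subtype (p := fun w : Fin (2 * N) → Bool =>
      ∀ i, 1 ≤ i → i ≤ 2 * N → inF v r i (pos w i)) _ (by intro x; simp) F
  rw [e, Fr_indicator (inF v r), e3]
  unfold ZZw
  apply Finset.sum_congr rfl
  intro w _
  have h1 : pw (wt β (gl N v r u u')) 0 w.1 =
      Real.exp (β * ∑ i ∈ Finset.Icc 1 (2 * N), gl N v r u u' i (pos w.1 i)) := by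
    unfold pw wt
    rw [← Real.exp_sum, ← sum_shift (fun i => gl N v r u u' i (pos w.1 i)), Finset.mul_sum]
    simp only [zero_add]
  have hsub : Finset.Icc (N + 1) (2 * N) ⊆ Finset.Icc 1 (2 * N) := by
    intro i hi
    rw [Finset.mem_Icc] at hi ⊢
    omega
  rw [h1, ← Finset.sum_sdiff hsub, mul_add, Real.exp_add]
  unfold cw dr
  rw [mul_comm, ← mul_assoc]
  congr 1
  · congr 3
    apply Finset.sum_congr rfl
    intro i hi
    rw [Finset.mem_sdiff] at hi
    have hnot : (i, pos w.1 i) ∉ S1 N v r := by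
      unfold S1
      rw [Finset.mem_filter]
      intro h
      exact hi.2 h.2.1
    unfold gl
    rw [dif_neg hnot, dif_neg hnot]
  · congr 2
    rw [← sum_vis w (gl N v r u u')]
    apply Finset.sum_congr rfl
    intro s _
    unfold gl
    rw [dif_pos s.2]

end Pool.Agent.K1H53.SF
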